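import Mathlib

/-! Definitions and statements of the pieces: positive strongly Kreiss bounded operators on L^p. -/

namespace Pool.Agent.R221.SK
open MeasureTheory Finset
open scoped ENNReal
universe u

/-- Negative binomial weights: `(2 - T)^{-N} = ∑ k, w N k • T^k`. -/
noncomputable def w (N k : ℕ) : ℝ := ((k + N - 1).choose k : ℝ) / 2 ^ (k + N)

/-- Chebyshev for the negative binomial weights. -/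
def S_cheb : Prop := ∀ N σ l : ℕ, 4 * N ≤ σ ^ 2 → N + σ ≤ l → l < N + 3 * σ →
  1 / 2 ≤ ∑ i ∈ range (4 * σ), (if i ≤ l then w N (l - i) else 0)

/-- Level lifting: a positive operator family dominated by `K` acts boundedly on `ℓ^p(L^p)` as a
causal Toeplitz matrix. -/
def S_level : Prop := ∀ (Ω : Type u) [MeasurableSpace Ω] (μ : Measure Ω) (p : ℝ) (_ : 1 < p)
  [Fact (1 ≤ ENNReal.ofReal p)]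
  (T : Lp ℝ (ENNReal.ofReal p) μ →L[ℝ] Lp ℝ (ENNReal.ofReal p) μ)
  (K : Lp ℝ (ENNReal.ofReal p) μ → Lp ℝ (ENNReal.ofReal p) μ) (M : ℝ) (v : ℕ → ℝ),
  (∀ f, 0 ≤ f → 0 ≤ T f) → 0 ≤ M → (∀ k, 0 ≤ v k) →
  (∀ f, 0 ≤ f → ‖K f‖ ≤ M * ‖f‖) →
  (∀ f, 0 ≤ f → ∀ n, ∑ k ∈ range n, v k • (T ^ k) f ≤ K f) →
  ∀ (f : ℕ → Lp ℝ (ENNReal.ofReal p) μ) (n : ℕ),
    ∑ l ∈ range n, ‖∑ i ∈ range (l + 1), v (l - i) • (T ^ (l - i)) (f i)‖ ^ p ≤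
      M ^ p * ∑ i ∈ range n, ‖f i‖ ^ p

/-- Abstract forward window estimate, from level lifting. -/
def S_fwd : Prop := ∀ (E : Type u) [NormedAddCommGroup E] [NormedSpace ℝ E] (p : ℝ) (_ : 1 < p)
  (T : E →L[ℝ] E) (M : ℝ), 0 ≤ M →
  (∀ (N : ℕ) (f : ℕ → E) (n : ℕ),
    ∑ l ∈ range n, ‖∑ i ∈ range (l + 1), w N (l - i) • (T ^ (l - i)) (f i)‖ ^ p ≤
      M ^ p * ∑ i ∈ range n, ‖f i‖ ^ p) →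
  ∀ (f : E) (N σ : ℕ), 4 * N ≤ σ ^ 2 →
    ∑ l ∈ Ico (N + σ) (N + 3 * σ), ‖(T ^ l) f‖ ^ p ≤
      (2 * M) ^ p * ∑ i ∈ range (4 * σ), ‖(T ^ i) f‖ ^ p

/-- Abstract backward (dual) window estimate, from level lifting; `q` is the conjugate exponent. -/
def S_bwd : Prop := ∀ (E : Type u) [NormedAddCommGroup E] [NormedSpace ℝ E] (p q : ℝ)
  (_ : p.HolderConjugate q) (T : E →L[ℝ] E) (M : ℝ), 0 ≤ M →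
  (∀ (N : ℕ) (f : ℕ → E) (n : ℕ),
    ∑ l ∈ range n, ‖∑ i ∈ range (l + 1), w N (l - i) • (T ^ (l - i)) (f i)‖ ^ p ≤
      M ^ p * ∑ i ∈ range n, ‖f i‖ ^ p) →
  ∀ (g : E →L[ℝ] ℝ) (N σ : ℕ), 4 * N ≤ σ ^ 2 →
    ∑ l ∈ Ico (N + σ) (N + 3 * σ), ‖g.comp (T ^ l)‖ ^ q ≤
      (2 * M) ^ q * ∑ i ∈ range (4 * σ), ‖g.comp (T ^ i)‖ ^ q

/-- Real recursion: windows estimates give polylogarithmic averages. -/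
def S_rec : Prop := ∀ C Λ : ℝ, 1 ≤ C → 1 ≤ Λ → ∃ (D : ℝ) (κ : ℕ), ∀ F : ℕ → ℝ,
  (∀ i, 0 ≤ F i) → (∀ i, F i ≤ Λ ^ i * F 0) →
  (∀ N σ : ℕ, 4 * N ≤ σ ^ 2 →
    ∑ l ∈ Ico (N + σ) (N + 3 * σ), F l ≤ C * ∑ i ∈ range (4 * σ), F i) →
  ∀ n : ℕ, 1 ≤ n → ∑ i ∈ range n, F i ≤ D * n * (1 + Real.log n) ^ κ * F 0

/-- Final combination in a Banach space. -/
def S_comb : Prop := ∀ (E : Type u) [NormedAddCommGroup E] [NormedSpace ℝ E] (p q : ℝ)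
  (_ : p.HolderConjugate q) (T : E →L[ℝ] E) (D : ℝ) (κ : ℕ), 0 ≤ D →
  (∀ (f : E) (n : ℕ), 1 ≤ n →
    ∑ i ∈ range n, ‖(T ^ i) f‖ ^ p ≤ D * n * (1 + Real.log n) ^ κ * ‖f‖ ^ p) →
  (∀ (g : E →L[ℝ] ℝ) (n : ℕ), 1 ≤ n →
    ∑ i ∈ range n, ‖g.comp (T ^ i)‖ ^ q ≤ D * n * (1 + Real.log n) ^ κ * ‖g‖ ^ q) →
  ∃ (D' : ℝ) (κ' : ℕ), ∀ n : ℕ, 1 ≤ n → ‖T ^ n‖ ≤ D' * (1 + Real.log n) ^ κ'

/-- `T` on complex `L^p` is positive. -/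
def Pos {Ω : Type*} [MeasurableSpace Ω] {μ : Measure Ω} {p : ℝ≥0∞} [Fact (1 ≤ p)]
    (T : Lp ℂ p μ →L[ℂ] Lp ℂ p μ) : Prop :=
  ∀ f : Lp ℂ p μ, (∀ᵐ x ∂μ, 0 ≤ (f x).re ∧ (f x).im = 0) →
    ∀ᵐ x ∂μ, 0 ≤ (T f x).re ∧ (T f x).im = 0

/-- Strong Kreiss boundedness (also called uniform Kreiss boundedness). -/
def SKB {X : Type*} [NormedAddCommGroup X] [NormedSpace ℂ X] (T : X →L[ℂ] X) : Prop :=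
  spectrum ℂ T ⊆ Metric.closedBall 0 1 ∧ ∃ M : ℝ, ∀ z : ℂ, 1 < ‖z‖ → ∀ k : ℕ, 1 ≤ k →
    ‖(resolvent T z) ^ k‖ ≤ M / (‖z‖ - 1) ^ k

/-- Transfer from complex to real `L^p`. -/
def S_cpx : Prop := ∀ (Ω : Type u) [MeasurableSpace Ω] (μ : Measure Ω) (p : ℝ≥0∞)
  [Fact (1 ≤ p)] (T : Lp ℂ p μ →L[ℂ] Lp ℂ p μ), Pos T → SKB T →
  ∃ (A : Lp ℝ p μ →L[ℝ] Lp ℝ p μ) (M : ℝ) (K : ℕ → Lp ℝ p μ → Lp ℝ p μ), 0 ≤ M ∧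
    (∀ f, 0 ≤ f → 0 ≤ A f) ∧ (∀ N f, 0 ≤ f → ‖K N f‖ ≤ M * ‖f‖) ∧
    (∀ N f, 0 ≤ f → ∀ n, ∑ k ∈ range n, w N k • (A ^ k) f ≤ K N f) ∧
    ∀ n, ‖T ^ n‖ ≤ 2 * ‖A ^ n‖

end Pool.Agent.R221.SK
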