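import Pool.Agent.R221.SK.Defs

/-! SK-BWD: the backward window estimate (helper662, for project SK of helper221) -/

namespace Pool.Agent.R221.SK
open MeasureTheory Finset
open scoped ENNReal
universe u

theorem bwd_swap {β : Type*} [AddCommMonoid β] (a : ℕ → β) (l m L : ℕ) (hl : l < L) :
    ∑ i ∈ (range m).filter (· < L), (if i ≤ l then a i else 0) =
      ∑ i ∈ range m, (if i ≤ l then a i else 0) := by
  rw [Finset.sum_filter]
  refine Finset.sum_congr rfl fun i _ => ?_
  by_cases h : i < L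
  · rw [if_pos h]
  · rw [if_neg h, if_neg (by omega)]

/-- an almost norming vector -/
theorem bwd_norming {E : Type*} [NormedAddCommGroup E] [NormedSpace ℝ E] (g : E →L[ℝ] ℝ)
    (ε : ℝ) (hε : 0 < ε) : ∃ x : E, ‖x‖ ≤ 1 ∧ (1 - ε) * ‖g‖ ≤ g x := by
  rcases (norm_nonneg g).eq_or_lt with h0 | h0
  · exact ⟨0, by simp, by rw [← h0, mul_zero, map_zero]⟩
  · obtain ⟨x, hx1, hx2⟩ := g.exists_lt_apply_of_lt_opNorm (r := (1 - ε) * ‖g‖) (by nlinarith)
    rcases le_total 0 (g x) with h | h
    · refine ⟨x, hx1.le, ?_⟩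
      rw [Real.norm_eq_abs, abs_of_nonneg h] at hx2
      exact hx2.le
    · refine ⟨-x, by rw [norm_neg]; exact hx1.le, ?_⟩
      rw [Real.norm_eq_abs, abs_of_nonpos h] at hx2
      rw [map_neg]
      exact hx2.le

/-- the elementary last step -/
theorem bwd_final {p q A B M : ℝ} (hpq : p.HolderConjugate q) (hM : 0 ≤ M) (hA : 0 ≤ A)
    (hB : 0 ≤ B) (h : ∀ ε : ℝ, 0 < ε → 1 / 2 * (1 - ε) * A ≤ B ^ (1 / q) * (M * A ^ (1 / p))) :
    A ≤ (2 * M) ^ q * B := by
  have hp0 : 0 < p := hpq.pos
  have hq0 : 0 < q := hpq.symm.pos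
  have h1 : 1 / 2 * A ≤ B ^ (1 / q) * (M * A ^ (1 / p)) := by
    apply le_of_forall_pos_le_add
    intro δ hδ
    have h2 := h (δ / (A + 1)) (by positivity)
    have h3 : 1 / 2 * (δ / (A + 1)) * A ≤ δ := by
      have h4 : δ / (A + 1) * A ≤ δ := by
        rw [div_mul_eq_mul_div, div_le_iff₀ (by positivity)]
        nlinarith
      linarith
    nlinarith
  rcases hA.eq_or_lt with h0 | h0
  · rw [← h0]
    positivity
  · have h2 : A ^ (1 / q) ≤ 2 * M * B ^ (1 / q) := by
      have h3 : A = A ^ (1 / q) * A ^ (1 / p) := by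
        rw [← Real.rpow_add h0]
        have h4 : 1 / q + 1 / p = 1 := by
          have := hpq.inv_add_inv_eq_one
          rw [one_div, one_div]
          linarith
        rw [h4, Real.rpow_one]
      have h5 : 0 < A ^ (1 / p) := Real.rpow_pos_of_pos h0 _
      have h6 : A ^ (1 / q) * A ^ (1 / p) ≤ (2 * M * B ^ (1 / q)) * A ^ (1 / p) := by
        rw [← h3]
        nlinarith
      exact le_of_mul_le_mul_right h6 h5
    have h7 : (A ^ (1 / q)) ^ q ≤ (2 * M * B ^ (1 / q)) ^ q :=
      Real.rpow_le_rpow (by positivity) h2 hq0.le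
    rw [Real.mul_rpow (by positivity) (by positivity), ← Real.rpow_mul hA, ← Real.rpow_mul hB,
      one_div, inv_mul_cancel₀ hq0.ne', Real.rpow_one, Real.rpow_one] at h7
    exact h7

theorem bwd (h : S_cheb) : S_bwd.{u} := by
  intro E _ _ p q hpq T M hM hyp g N σ hNσ
  have hp0 : 0 < p := hpq.pos
  have hq0 : 0 < q := hpq.symm.pos
  set G : ℕ → ℝ := fun l => ‖g.comp (T ^ l)‖ with hG
  have hG0 : ∀ l, 0 ≤ G l := fun l => norm_nonneg _
  set L : ℕ := N + 3 * σ with hL
  have hA : 0 ≤ ∑ l ∈ Ico (N + σ) (N + 3 * σ), G l ^ q :=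
    Finset.sum_nonneg fun l _ => Real.rpow_nonneg (hG0 l) _
  have hB : 0 ≤ ∑ i ∈ range (4 * σ), G i ^ q :=
    Finset.sum_nonneg fun l _ => Real.rpow_nonneg (hG0 l) _
  refine bwd_final hpq hM hA hB fun ε hε => ?_
  choose φ hφ1 hφ2 using fun l : ℕ => bwd_norming (g.comp (T ^ l)) ε hε
  set c : ℕ → ℝ := fun l => G l ^ (q - 1) with hc
  have hc0 : ∀ l, 0 ≤ c l := fun l => Real.rpow_nonneg (hG0 l) _
  have hcG : ∀ l, c l * G l = G l ^ q := by
    intro l
    rcases (hG0 l).eq_or_lt with h0 | h0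
    · rw [← h0, mul_zero, Real.zero_rpow hq0.ne']
    · show G l ^ (q - 1) * G l = G l ^ q
      rw [Real.rpow_sub_one h0.ne']
      field_simp
  have hcp : ∀ l, c l ^ p = G l ^ q := by
    intro l
    show (G l ^ (q - 1)) ^ p = G l ^ q
    rw [← Real.rpow_mul (hG0 l), hpq.symm.sub_one_mul_conj]
  set W : Finset ℕ := Ico (N + σ) (N + 3 * σ) with hW
  have hWL : ∀ l ∈ W, l < L := fun l hl => (mem_Ico.1 hl).2
  set ψ : ℕ → E := fun l => if l ∈ W then c l • φ l else 0 with hψ
  set η : ℕ → E := fun i => ∑ l ∈ range L, if i ≤ l then w N (l - i) • (T ^ (l - i)) (ψ l) else 0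
    with hη
  -- the hypothesis in terms of `η`
  have h1 : ∑ i ∈ range L, ‖η i‖ ^ p ≤ M ^ p * ∑ l ∈ W, G l ^ q := by
    have e0 := hyp N (fun j => ψ (L - 1 - j)) L
    rw [Finset.sum_range_reflect (fun l => ‖ψ l‖ ^ p) L] at e0
    have e1 : ∑ l ∈ range L, ‖∑ i ∈ range (l + 1),
        w N (l - i) • (T ^ (l - i)) (ψ (L - 1 - i))‖ ^ p = ∑ i ∈ range L, ‖η i‖ ^ p := by
      rw [← Finset.sum_range_reflect]
      refine Finset.sum_congr rfl fun i hi => ?_
      rw [mem_range] at hi
      congr 2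
      show _ = ∑ l ∈ range L, if i ≤ l then w N (l - i) • (T ^ (l - i)) (ψ l) else 0
      rw [← Finset.sum_filter]
      refine Finset.sum_nbij' (fun j => L - 1 - j) (fun l => L - 1 - l) ?_ ?_ ?_ ?_ ?_
      · intro j hj
        rw [mem_range] at hj
        rw [mem_filter, mem_range]
        omega
      · intro l hl
        rw [mem_filter, mem_range] at hl
        rw [mem_range]
        omega
      · intro j hj
        rw [mem_range] at hj
        show L - 1 - (L - 1 - j) = j
        omega
      · intro l hl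
        rw [mem_filter, mem_range] at hl
        show L - 1 - (L - 1 - l) = l
        omega
      · intro j hj
        rw [mem_range] at hj
        show w N (L - 1 - i - j) • (T ^ (L - 1 - i - j)) (ψ (L - 1 - j)) =
          w N (L - 1 - j - i) • (T ^ (L - 1 - j - i)) (ψ (L - 1 - j))
        rw [Nat.sub_right_comm]
    rw [e1] at e0
    refine e0.trans (mul_le_mul_of_nonneg_left ?_ (by positivity))
    have e2 : ∀ l, ‖ψ l‖ ^ p ≤ if l ∈ W then G l ^ q else 0 := by
      intro l
      by_cases hl : l ∈ W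
      · have : ψ l = c l • φ l := if_pos hl
        rw [this, if_pos hl, ← hcp l, norm_smul, Real.norm_eq_abs, abs_of_nonneg (hc0 l)]
        apply Real.rpow_le_rpow (by have := hc0 l; positivity) _ hp0.le
        calc c l * ‖φ l‖ ≤ c l * 1 := mul_le_mul_of_nonneg_left (hφ1 l) (hc0 l)
          _ = c l := mul_one _
      · have : ψ l = 0 := if_neg hl
        rw [this, if_neg hl, norm_zero, Real.zero_rpow hp0.ne']
    calc ∑ l ∈ range L, ‖ψ l‖ ^ p ≤ ∑ l ∈ range L, if l ∈ W then G l ^ q else 0 :=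
          Finset.sum_le_sum fun l _ => e2 l
      _ = ∑ l ∈ W, G l ^ q := by
          rw [← Finset.sum_filter]
          congr 1
          ext l
          rw [mem_filter, mem_range]
          exact ⟨fun h => h.2, fun h => ⟨hWL l h, h⟩⟩
  -- the pairing
  set I : Finset ℕ := (range (4 * σ)).filter (· < L) with hI
  have h2 : ∑ i ∈ I, g ((T ^ i) (η i)) = ∑ l ∈ W, c l * g ((T ^ l) (φ l)) *
      ∑ i ∈ range (4 * σ), (if i ≤ l then w N (l - i) else 0) := by
    have e1 : ∀ i ∈ I, g ((T ^ i) (η i)) =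
        ∑ l ∈ W, if i ≤ l then w N (l - i) * (c l * g ((T ^ l) (φ l))) else 0 := by
      intro i _
      show g ((T ^ i) (∑ l ∈ range L, if i ≤ l then w N (l - i) • (T ^ (l - i)) (ψ l) else 0)) = _
      rw [map_sum, map_sum]
      have e2 : ∀ l ∈ range L, g ((T ^ i) (if i ≤ l then w N (l - i) • (T ^ (l - i)) (ψ l)
          else 0)) = if l ∈ W then (if i ≤ l then w N (l - i) * (c l * g ((T ^ l) (φ l)))
            else 0) else 0 := by
        intro l _
        by_cases hl : l ∈ W
        · rw [if_pos hl]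
          by_cases hil : i ≤ l
          · have e3 : ψ l = c l • φ l := if_pos hl
            rw [if_pos hil, if_pos hil, e3, map_smul, map_smul, map_smul, map_smul, map_smul,
              ← ContinuousLinearMap.mul_apply, ← pow_add, Nat.add_sub_cancel' hil, smul_eq_mul,
              smul_eq_mul]
          · rw [if_neg hil, if_neg hil, map_zero, map_zero]
        · have e3 : ψ l = 0 := if_neg hl
          rw [if_neg hl, e3, map_zero, smul_zero]
          split_ifs <;> rw [map_zero, map_zero]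
      rw [Finset.sum_congr rfl e2, ← Finset.sum_filter]
      apply Finset.sum_congr _ fun _ _ => rfl
      ext l
      rw [mem_filter, mem_range]
      exact ⟨fun h => h.2, fun h => ⟨hWL l h, h⟩⟩
    rw [Finset.sum_congr rfl e1, Finset.sum_comm]
    refine Finset.sum_congr rfl fun l hl => ?_
    rw [← bwd_swap (fun i => w N (l - i)) l (4 * σ) L (hWL l hl), Finset.mul_sum]
    refine Finset.sum_congr rfl fun i _ => ?_
    split_ifs
    · ring
    · rw [mul_zero]
  have h3 : 1 / 2 * (1 - ε) * ∑ l ∈ W, G l ^ q ≤ ∑ i ∈ I, g ((T ^ i) (η i)) ∨ 1 < ε := by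
    rcases lt_or_ge 1 ε with h | hε1
    · exact Or.inr h
    · left
      rw [h2, Finset.mul_sum]
      refine Finset.sum_le_sum fun l hl => ?_
      have hl' := mem_Ico.1 hl
      have hs := h N σ l hNσ hl'.1 hl'.2
      have h4 : (1 - ε) * G l ≤ g ((T ^ l) (φ l)) := hφ2 l
      have h5 : (1 - ε) * G l ^ q ≤ c l * g ((T ^ l) (φ l)) := by
        rw [← hcG l]
        nlinarith [mul_le_mul_of_nonneg_left h4 (hc0 l)]
      have h6 : 0 ≤ (1 - ε) * G l ^ q :=
        mul_nonneg (by linarith) (Real.rpow_nonneg (hG0 l) _)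
      nlinarith
  have h4 : ∑ i ∈ I, g ((T ^ i) (η i)) ≤
      (∑ i ∈ range (4 * σ), G i ^ q) ^ (1 / q) * (M * (∑ l ∈ W, G l ^ q) ^ (1 / p)) := by
    calc ∑ i ∈ I, g ((T ^ i) (η i)) ≤ ∑ i ∈ I, G i * ‖η i‖ := by
          refine Finset.sum_le_sum fun i _ => (le_abs_self _).trans ?_
          rw [← Real.norm_eq_abs]
          exact (g.comp (T ^ i)).le_opNorm (η i)
      _ ≤ (∑ i ∈ I, G i ^ q) ^ (1 / q) * (∑ i ∈ I, ‖η i‖ ^ p) ^ (1 / p) :=
          Real.inner_le_Lp_mul_Lq_of_nonneg I hpq.symm (fun i _ => hG0 i)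
            (fun i _ => norm_nonneg _)
      _ ≤ (∑ i ∈ range (4 * σ), G i ^ q) ^ (1 / q) *
          (M ^ p * ∑ l ∈ W, G l ^ q) ^ (1 / p) := by
          apply mul_le_mul
          · apply Real.rpow_le_rpow (Finset.sum_nonneg fun l _ => Real.rpow_nonneg (hG0 l) _)
            · apply Finset.sum_le_sum_of_subset_of_nonneg (Finset.filter_subset _ _)
              intro i _ _
              exact Real.rpow_nonneg (hG0 i) _
            · positivity
          · apply Real.rpow_le_rpow (Finset.sum_nonneg fun l _ => by positivity)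
            · refine le_trans ?_ h1
              apply Finset.sum_le_sum_of_subset_of_nonneg
              · intro i hi
                exact mem_range.2 (mem_filter.1 hi).2
              · intro i _ _
                positivity
            · positivity
          · exact Real.rpow_nonneg (Finset.sum_nonneg fun l _ => by positivity) _
          · exact Real.rpow_nonneg hB _
      _ = _ := by
          rw [Real.mul_rpow (by positivity) hA, ← Real.rpow_mul hM, one_div p,
            mul_inv_cancel₀ hp0.ne', Real.rpow_one]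
  rcases h3 with h3 | h3
  · exact h3.trans h4
  · have h5 : 1 / 2 * (1 - ε) * ∑ l ∈ W, G l ^ q ≤ 0 := by
      have : (1 - ε) ≤ 0 := by linarith
      nlinarith
    refine h5.trans ?_
    positivity

end Pool.Agent.R221.SK
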