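import Pool.Agent.R221.SK.Defs

/-! Chebyshev inequality for the negative binomial weights. -/

namespace Pool.Agent.R221.SK
open MeasureTheory Finset

namespace ChebAux

theorem w_nonneg (N k : ℕ) : 0 ≤ w N k := by
  unfold w
  positivity

theorem w_step (n k : ℕ) : ((k : ℝ) + 1) * w (n + 1) (k + 1) = ((n : ℝ) + 1) * w (n + 2) k := by
  unfold w
  have e1 : k + 1 + (n + 1) - 1 = k + n + 1 := by omega
  have e2 : k + (n + 2) - 1 = k + n + 1 := by omega
  have e3 : k + 1 + (n + 1) = k + (n + 2) := by omega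
  rw [e1, e2, e3]
  have h := Nat.choose_succ_right_eq (k + n + 1) k
  have e4 : k + n + 1 - k = n + 1 := by omega
  rw [e4] at h
  have h' : (((k + n + 1).choose (k + 1) : ℕ) : ℝ) * ((k : ℝ) + 1)
      = (((k + n + 1).choose k : ℕ) : ℝ) * ((n : ℝ) + 1) := by
    exact_mod_cast h
  rw [mul_div_assoc', mul_div_assoc', mul_comm ((k : ℝ) + 1), h', mul_comm ((n : ℝ) + 1)]

theorem m0 (n : ℕ) : HasSum (fun k => w (n + 1) k) 1 := by
  have h := hasSum_choose_mul_geometric_of_norm_lt_one (𝕜 := ℝ) n (r := 1 / 2)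
    (by rw [Real.norm_eq_abs, abs_of_pos] <;> norm_num)
  have h2 := h.mul_right ((1 / 2 : ℝ) ^ (n + 1))
  have e : (1 : ℝ) / (1 - 1 / 2) ^ (n + 1) * (1 / 2) ^ (n + 1) = 1 := by
    have : (1 : ℝ) - 1 / 2 = 1 / 2 := by norm_num
    rw [this]
    exact one_div_mul_cancel (by positivity)
  rw [e] at h2
  have e2 : (fun k => w (n + 1) k)
      = fun k : ℕ => (((k + n).choose n : ℕ) : ℝ) * (1 / 2) ^ k * (1 / 2) ^ (n + 1) := by
    ext k
    unfold w
    have e1 : k + (n + 1) - 1 = k + n := by omega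
    rw [e1, mul_assoc, ← pow_add, one_div_pow, mul_one_div, Nat.choose_symm_add]
  rw [e2]
  exact h2

theorem shift {g : ℕ → ℝ} {a : ℝ} (h : HasSum (fun k => g (k + 1)) a) (h0 : g 0 = 0) :
    HasSum g a := by
  refine (hasSum_nat_add_iff' 1).mp ?_
  rw [Finset.sum_range_one, h0, sub_zero]
  exact h

theorem m1 (n : ℕ) : HasSum (fun k : ℕ => (k : ℝ) * w (n + 1) k) ((n : ℝ) + 1) := by
  refine shift ?_ (by simp)
  have e : (fun k : ℕ => ((k + 1 : ℕ) : ℝ) * w (n + 1) (k + 1))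
      = fun k : ℕ => ((n : ℝ) + 1) * w (n + 2) k := by
    ext k
    push_cast
    exact w_step n k
  rw [e]
  have := (m0 (n + 1)).mul_left ((n : ℝ) + 1)
  rw [mul_one] at this
  exact this

theorem m2 (n : ℕ) : HasSum (fun k : ℕ => (k : ℝ) * ((k : ℝ) - 1) * w (n + 1) k)
    (((n : ℝ) + 1) * ((n : ℝ) + 2)) := by
  refine shift ?_ (by simp)
  have e : (fun k : ℕ => ((k + 1 : ℕ) : ℝ) * (((k + 1 : ℕ) : ℝ) - 1) * w (n + 1) (k + 1))
      = fun k : ℕ => ((n : ℝ) + 1) * ((k : ℝ) * w (n + 2) k) := by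
    ext k
    push_cast
    have := w_step n k
    linear_combination (k : ℝ) * this
  rw [e]
  have := (m1 (n + 1)).mul_left ((n : ℝ) + 1)
  have e3 : ((n : ℝ) + 1) * ((n : ℝ) + 2) = ((n : ℝ) + 1) * (((n + 1 : ℕ) : ℝ) + 1) := by
    push_cast; ring
  rw [e3]
  exact this

theorem mvar (n : ℕ) (σ : ℝ) :
    HasSum (fun k : ℕ => (((k : ℝ) - ((n : ℝ) + 1)) ^ 2 - σ ^ 2) * w (n + 1) k)
      (2 * ((n : ℝ) + 1) - σ ^ 2) := by
  have h := ((m2 n).add ((m1 n).mul_left (1 - 2 * ((n : ℝ) + 1)))).add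
    ((m0 n).mul_left (((n : ℝ) + 1) ^ 2 - σ ^ 2))
  have e1 : 2 * ((n : ℝ) + 1) - σ ^ 2 = ((n : ℝ) + 1) * ((n : ℝ) + 2)
      + (1 - 2 * ((n : ℝ) + 1)) * ((n : ℝ) + 1) + (((n : ℝ) + 1) ^ 2 - σ ^ 2) * 1 := by ring
  rw [e1]
  have e2 : (fun k : ℕ => (((k : ℝ) - ((n : ℝ) + 1)) ^ 2 - σ ^ 2) * w (n + 1) k)
      = fun k : ℕ => (k : ℝ) * ((k : ℝ) - 1) * w (n + 1) k
        + (1 - 2 * ((n : ℝ) + 1)) * ((k : ℝ) * w (n + 1) k)
        + (((n : ℝ) + 1) ^ 2 - σ ^ 2) * w (n + 1) k := by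
    ext k
    ring
  rw [e2]
  exact h

theorem mass (n σ : ℕ) (h : 4 * (n + 1) ≤ σ ^ 2) :
    1 / 2 ≤ ∑ k ∈ Ico (n + 1 + 1 - σ) (n + 1 + σ), w (n + 1) k := by
  have hs : (0 : ℝ) < (σ : ℝ) ^ 2 := by
    have : 0 < σ ^ 2 := by omega
    exact_mod_cast this
  have h' : 4 * ((n : ℝ) + 1) ≤ (σ : ℝ) ^ 2 := by exact_mod_cast h
  have key := sum_le_hasSum (Ico (n + 1 + 1 - σ) (n + 1 + σ)) (fun k hk => ?_) (mvar n σ)
  · have h2 : ∑ k ∈ Ico (n + 1 + 1 - σ) (n + 1 + σ), (-(σ : ℝ) ^ 2) * w (n + 1) k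
        ≤ ∑ k ∈ Ico (n + 1 + 1 - σ) (n + 1 + σ),
          (((k : ℝ) - ((n : ℝ) + 1)) ^ 2 - (σ : ℝ) ^ 2) * w (n + 1) k := by
      refine Finset.sum_le_sum fun k _ => ?_
      refine mul_le_mul_of_nonneg_right ?_ (w_nonneg _ _)
      nlinarith [sq_nonneg ((k : ℝ) - ((n : ℝ) + 1))]
    rw [← Finset.mul_sum] at h2
    have h3 := h2.trans key
    have h4 : (σ : ℝ) ^ 2 * (1 / 2) ≤ (σ : ℝ) ^ 2
        * ∑ k ∈ Ico (n + 1 + 1 - σ) (n + 1 + σ), w (n + 1) k := by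
      linarith
    exact le_of_mul_le_mul_left h4 hs
  · refine mul_nonneg ?_ (w_nonneg _ _)
    rw [Finset.mem_Ico, not_and_or, not_le, not_lt] at hk
    rw [sub_nonneg]
    rcases hk with hk | hk
    · have : k + σ ≤ n + 1 := by omega
      have h1 : (k : ℝ) + σ ≤ (n : ℝ) + 1 := by exact_mod_cast this
      have h2 : (0 : ℝ) ≤ σ := Nat.cast_nonneg _
      nlinarith
    · have h1 : (n : ℝ) + 1 + σ ≤ k := by exact_mod_cast hk
      have h2 : (0 : ℝ) ≤ σ := Nat.cast_nonneg _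
      nlinarith

end ChebAux

open ChebAux in
/-- Chebyshev for the negative binomial weights. -/
theorem cheb : S_cheb := by
  intro N σ l h h1 h2
  have hnn : ∀ i, 0 ≤ (if i ≤ l then w N (l - i) else 0) := by
    intro i
    split_ifs
    · exact w_nonneg _ _
    · exact le_rfl
  rcases N with _ | n
  · have hl : l ∈ range (4 * σ) := Finset.mem_range.mpr (by omega)
    have h3 := Finset.single_le_sum (fun i _ => hnn i) hl
    have h4 : (if l ≤ l then w 0 (l - l) else 0) = 1 := by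
      rw [if_pos le_rfl, Nat.sub_self]
      unfold w
      norm_num
    rw [h4] at h3
    linarith
  · refine (mass n σ h).trans ?_
    have hinj : ∀ x ∈ Ico (n + 1 + 1 - σ) (n + 1 + σ), ∀ y ∈ Ico (n + 1 + 1 - σ) (n + 1 + σ),
        l - x = l - y → x = y := by
      intro x hx y hy hxy
      rw [Finset.mem_Ico] at hx hy
      omega
    have e : ∑ k ∈ Ico (n + 1 + 1 - σ) (n + 1 + σ), w (n + 1) k
        = ∑ i ∈ (Ico (n + 1 + 1 - σ) (n + 1 + σ)).image (fun k => l - k),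
          (if i ≤ l then w (n + 1) (l - i) else 0) := by
      rw [Finset.sum_image hinj]
      refine Finset.sum_congr rfl fun k hk => ?_
      rw [Finset.mem_Ico] at hk
      rw [if_pos (Nat.sub_le _ _), Nat.sub_sub_self (by omega)]
    rw [e]
    refine Finset.sum_le_sum_of_subset_of_nonneg ?_ fun i _ _ => hnn i
    intro i hi
    rw [Finset.mem_image] at hi
    obtain ⟨k, hk, rfl⟩ := hi
    rw [Finset.mem_Ico] at hk
    rw [Finset.mem_range]
    omega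

end Pool.Agent.R221.SK
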