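import Pool.Agent.R221.SK.Defs

/-! SK-COMB: the final combination (Hoelder and Hahn-Banach). -/

namespace Pool.Agent.R221.SK
open MeasureTheory Finset
open scoped ENNReal

theorem comb_log (n : ℕ) (hn : 1 ≤ n) : 1 + Real.log ((n : ℝ) + 1) ≤ 2 * (1 + Real.log n) := by
  have hn' : (1 : ℝ) ≤ n := by exact_mod_cast hn
  have h1 : Real.log ((n : ℝ) + 1) ≤ Real.log (2 * n) :=
    Real.log_le_log (by positivity) (by linarith)
  have h2 : Real.log (2 * (n : ℝ)) = Real.log 2 + Real.log n :=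
    Real.log_mul (by norm_num) (by positivity)
  have h3 : Real.log 2 < 1 := by
    have := Real.log_two_lt_d9
    linarith
  have h4 : 0 ≤ Real.log (n : ℝ) := Real.log_nonneg hn'
  linarith

theorem comb : S_comb := by
  intro E _ _ p q hpq T D κ hD h1 h2
  refine ⟨D * 2 ^ (κ + 1), κ, ?_⟩
  intro n hn
  have hn' : (1 : ℝ) ≤ n := by exact_mod_cast hn
  have hlog : 0 ≤ Real.log (n : ℝ) := Real.log_nonneg hn'
  have hp : 0 < p := hpq.pos
  have hq : 0 < q := hpq.symm.pos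
  set B : ℝ := D * ((n : ℝ) + 1) * (1 + Real.log ((n : ℝ) + 1)) ^ κ with hB
  have hlog1 : 0 ≤ Real.log ((n : ℝ) + 1) := Real.log_nonneg (by linarith)
  have hB0 : 0 ≤ B := by positivity
  have hBn : B ≤ D * 2 ^ (κ + 1) * (1 + Real.log n) ^ κ * n := by
    have h3 : (1 + Real.log ((n : ℝ) + 1)) ^ κ ≤ (2 * (1 + Real.log n)) ^ κ :=
      pow_le_pow_left₀ (by positivity) (comb_log n hn) κ
    calc B ≤ D * (2 * n) * (2 * (1 + Real.log n)) ^ κ := by
          rw [hB]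
          have h4 : ((n : ℝ) + 1) ≤ 2 * n := by linarith
          gcongr
      _ = D * 2 ^ (κ + 1) * (1 + Real.log n) ^ κ * n := by
          rw [mul_pow]; ring
  have key : ∀ (f : E) (g : E →L[ℝ] ℝ), (n : ℝ) * |g ((T ^ n) f)| ≤ B * ‖f‖ * ‖g‖ := by
    intro f g
    have e : (n : ℝ) * |g ((T ^ n) f)| ≤
        ∑ j ∈ range n, ‖(T ^ (n - j)) f‖ * ‖g.comp (T ^ j)‖ := by
      have h5 : ∀ j ∈ range n, |g ((T ^ n) f)| ≤ ‖(T ^ (n - j)) f‖ * ‖g.comp (T ^ j)‖ := by
        intro j hj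
        have hjn : j ≤ n := (mem_range.1 hj).le
        have h6 : g ((T ^ n) f) = (g.comp (T ^ j)) ((T ^ (n - j)) f) := by
          rw [ContinuousLinearMap.comp_apply, ← mul_apply_eq_comp, ← pow_add,
            Nat.add_sub_cancel' hjn]
        rw [h6, ← Real.norm_eq_abs, mul_comm]
        exact (g.comp (T ^ j)).le_opNorm _
      calc (n : ℝ) * |g ((T ^ n) f)| = ∑ _j ∈ range n, |g ((T ^ n) f)| := by
            rw [sum_const, card_range, nsmul_eq_mul]
        _ ≤ _ := sum_le_sum h5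
    refine e.trans ?_
    refine (Real.inner_le_Lp_mul_Lq (range n) (fun j => ‖(T ^ (n - j)) f‖)
      (fun j => ‖g.comp (T ^ j)‖) hpq).trans ?_
    simp only [abs_norm]
    have hX : ∑ j ∈ range n, ‖(T ^ (n - j)) f‖ ^ p ≤ B * ‖f‖ ^ p := by
      have h7 : ∑ j ∈ range n, ‖(T ^ (n - j)) f‖ ^ p = ∑ i ∈ range n, ‖(T ^ (i + 1)) f‖ ^ p := by
        rw [← sum_range_reflect (fun i => ‖(T ^ (i + 1)) f‖ ^ p) n]
        refine sum_congr rfl ?_
        intro j hj
        have : n - 1 - j + 1 = n - j := by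
          have := mem_range.1 hj
          omega
        rw [this]
      rw [h7]
      have h8 : ∑ i ∈ range n, ‖(T ^ (i + 1)) f‖ ^ p ≤ ∑ i ∈ range (n + 1), ‖(T ^ i) f‖ ^ p := by
        rw [sum_range_succ']
        have : (0 : ℝ) ≤ ‖(T ^ 0) f‖ ^ p := by positivity
        linarith
      refine h8.trans ?_
      have h9 := h1 f (n + 1) (by omega)
      simp only [Nat.cast_add, Nat.cast_one] at h9
      exact h9
    have hY : ∑ j ∈ range n, ‖g.comp (T ^ j)‖ ^ q ≤ B * ‖g‖ ^ q := by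
      have h8 : ∑ j ∈ range n, ‖g.comp (T ^ j)‖ ^ q ≤ ∑ j ∈ range (n + 1), ‖g.comp (T ^ j)‖ ^ q := by
        rw [sum_range_succ]
        have : (0 : ℝ) ≤ ‖g.comp (T ^ n)‖ ^ q := by positivity
        linarith
      refine h8.trans ?_
      have h9 := h2 g (n + 1) (by omega)
      simp only [Nat.cast_add, Nat.cast_one] at h9
      exact h9
    have hX' : (∑ j ∈ range n, ‖(T ^ (n - j)) f‖ ^ p) ^ (1 / p) ≤ B ^ (1 / p) * ‖f‖ := by
      calc (∑ j ∈ range n, ‖(T ^ (n - j)) f‖ ^ p) ^ (1 / p) ≤ (B * ‖f‖ ^ p) ^ (1 / p) :=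
            Real.rpow_le_rpow (by positivity) hX (by positivity)
        _ = B ^ (1 / p) * ‖f‖ := by
            rw [Real.mul_rpow hB0 (by positivity), ← Real.rpow_mul (norm_nonneg f),
              mul_one_div_cancel hp.ne', Real.rpow_one]
    have hY' : (∑ j ∈ range n, ‖g.comp (T ^ j)‖ ^ q) ^ (1 / q) ≤ B ^ (1 / q) * ‖g‖ := by
      calc (∑ j ∈ range n, ‖g.comp (T ^ j)‖ ^ q) ^ (1 / q) ≤ (B * ‖g‖ ^ q) ^ (1 / q) :=
            Real.rpow_le_rpow (by positivity) hY (by positivity)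
        _ = B ^ (1 / q) * ‖g‖ := by
            rw [Real.mul_rpow hB0 (by positivity), ← Real.rpow_mul (norm_nonneg g),
              mul_one_div_cancel hq.ne', Real.rpow_one]
    have hBB : B ^ (1 / p) * B ^ (1 / q) = B := by
      have hs : 1 / p + 1 / q = 1 := by
        have := hpq.inv_add_inv_eq_one
        rw [one_div, one_div]; exact this
      rw [← Real.rpow_add_of_nonneg hB0 (by positivity) (by positivity), hs, Real.rpow_one]
    calc (∑ j ∈ range n, ‖(T ^ (n - j)) f‖ ^ p) ^ (1 / p) *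
          (∑ j ∈ range n, ‖g.comp (T ^ j)‖ ^ q) ^ (1 / q)
        ≤ (B ^ (1 / p) * ‖f‖) * (B ^ (1 / q) * ‖g‖) :=
          mul_le_mul hX' hY' (by positivity) (by positivity)
      _ = (B ^ (1 / p) * B ^ (1 / q)) * ‖f‖ * ‖g‖ := by ring
      _ = B * ‖f‖ * ‖g‖ := by rw [hBB]
  have hn0 : (0 : ℝ) < n := by linarith
  have hM0 : 0 ≤ D * 2 ^ (κ + 1) * (1 + Real.log n) ^ κ := by positivity
  refine ContinuousLinearMap.opNorm_le_bound _ hM0 ?_
  intro f
  refine NormedSpace.norm_le_dual_bound ℝ _ (by positivity) ?_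
  intro g
  have h10 := key f g
  have h11 : B * ‖f‖ * ‖g‖ ≤ (D * 2 ^ (κ + 1) * (1 + Real.log n) ^ κ * n) * ‖f‖ * ‖g‖ := by
    gcongr
  have h12 : (n : ℝ) * |g ((T ^ n) f)| ≤
      (n : ℝ) * (D * 2 ^ (κ + 1) * (1 + Real.log n) ^ κ * ‖f‖ * ‖g‖) := by
    calc _ ≤ _ := h10.trans h11
      _ = _ := by ring
  exact le_of_mul_le_mul_left h12 hn0

end Pool.Agent.R221.SK
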