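import Pool.Agent.R221.SK.Defs

/-!
# Piece SK-CPX: transfer from complex to real `L^p`
-/

namespace Pool.Agent.R221.SK

open MeasureTheory Finset Filter Topology
open scoped ENNReal
universe u

namespace Cpx

variable {Ω : Type u} [MeasurableSpace Ω] {μ : Measure Ω} {p : ℝ≥0∞} [Fact (1 ≤ p)]

/-- real functions as complex functions -/
noncomputable def ofR : Lp ℝ p μ →L[ℝ] Lp ℂ p μ := Complex.ofRealCLM.compLpL p μ

/-- real part -/
noncomputable def reL : Lp ℂ p μ →L[ℝ] Lp ℝ p μ := Complex.reCLM.compLpL p μ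

/-- imaginary part -/
noncomputable def imL : Lp ℂ p μ →L[ℝ] Lp ℝ p μ := Complex.imCLM.compLpL p μ

lemma ofR_ae (f : Lp ℝ p μ) : ofR f =ᵐ[μ] fun x => ((f x : ℝ) : ℂ) :=
  Complex.ofRealCLM.coeFn_compLpL f

lemma reL_ae (g : Lp ℂ p μ) : reL g =ᵐ[μ] fun x => (g x).re := Complex.reCLM.coeFn_compLpL g

lemma imL_ae (g : Lp ℂ p μ) : imL g =ᵐ[μ] fun x => (g x).im := Complex.imCLM.coeFn_compLpL g

lemma re_ofR (f : Lp ℝ p μ) : reL (ofR f) = f := by
  apply Lp.ext
  filter_upwards [reL_ae (ofR f), ofR_ae f] with x h1 h2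
  rw [h1, h2, Complex.ofReal_re]

lemma decomp (g : Lp ℂ p μ) : g = ofR (reL g) + Complex.I • ofR (imL g) := by
  apply Lp.ext
  filter_upwards [Lp.coeFn_add (ofR (reL g)) (Complex.I • ofR (imL g)),
    Lp.coeFn_smul Complex.I (ofR (imL g)), ofR_ae (reL g), ofR_ae (imL g), reL_ae g, imL_ae g]
    with x h1 h2 h3 h4 h5 h6
  rw [h1, Pi.add_apply, h2, Pi.smul_apply, h3, h4, h5, h6, smul_eq_mul, mul_comm Complex.I,
    Complex.re_add_im]

lemma norm_ofR (f : Lp ℝ p μ) : ‖ofR f‖ = ‖f‖ := by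
  rw [Lp.norm_def, Lp.norm_def]
  congr 1
  refine eLpNorm_congr_norm_ae ?_
  filter_upwards [ofR_ae f] with x h
  rw [h, Complex.norm_real]

lemma norm_re (g : Lp ℂ p μ) : ‖reL g‖ ≤ ‖g‖ := by
  refine Lp.norm_le_norm_of_ae_le ?_
  filter_upwards [reL_ae g] with x h
  rw [h, Real.norm_eq_abs]
  exact Complex.abs_re_le_norm _

lemma norm_im (g : Lp ℂ p μ) : ‖imL g‖ ≤ ‖g‖ := by
  refine Lp.norm_le_norm_of_ae_le ?_
  filter_upwards [imL_ae g] with x h
  rw [h, Real.norm_eq_abs]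
  exact Complex.abs_im_le_norm _

/-- nonnegative elements -/
def NN (g : Lp ℂ p μ) : Prop := g = ofR (reL g) ∧ 0 ≤ reL g

lemma NN_iff (g : Lp ℂ p μ) : NN g ↔ ∀ᵐ x ∂μ, 0 ≤ (g x).re ∧ (g x).im = 0 := by
  constructor
  · rintro ⟨h1, h2⟩
    rw [← Lp.coeFn_nonneg] at h2
    have h3 := ofR_ae (reL g)
    rw [← h1] at h3
    filter_upwards [h2, h3, reL_ae g] with x h4 h5 h6
    constructor
    · rw [← h6]; exact h4
    · rw [h5, Complex.ofReal_im]
  · intro h
    constructor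
    · apply Lp.ext
      filter_upwards [h, ofR_ae (reL g), reL_ae g] with x h1 h2 h3
      rw [h2, h3]
      exact Complex.ext (by simp) (by simp [h1.2])
    · rw [← Lp.coeFn_nonneg]
      filter_upwards [h, reL_ae g] with x h1 h2
      rw [h2]; exact h1.1

lemma NN_ofR {f : Lp ℝ p μ} (hf : 0 ≤ f) : NN (ofR f) := by
  unfold NN
  rw [re_ofR]
  exact ⟨rfl, hf⟩

omit [Fact (1 ≤ p)] in
lemma smul_nn (c : ℝ) (hc : 0 ≤ c) (f : Lp ℝ p μ) (hf : 0 ≤ f) : 0 ≤ c • f := by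
  rw [← Lp.coeFn_nonneg] at hf ⊢
  filter_upwards [hf, Lp.coeFn_smul c f] with x h1 h2
  rw [h2]
  exact mul_nonneg hc h1

omit [Fact (1 ≤ p)] in
lemma smul_mono (c : ℝ) (hc : 0 ≤ c) (f g : Lp ℝ p μ) (hf : f ≤ g) : c • f ≤ c • g := by
  have := smul_nn c hc (g - f) (sub_nonneg.2 hf)
  rw [smul_sub] at this
  exact sub_nonneg.1 this

lemma NN_add {f g : Lp ℂ p μ} (hf : NN f) (hg : NN g) : NN (f + g) := by
  refine ⟨?_, ?_⟩
  · rw [map_add, map_add, ← hf.1, ← hg.1]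
  · rw [map_add]; exact add_nonneg hf.2 hg.2

lemma NN_smul {f : Lp ℂ p μ} (hf : NN f) (c : ℝ) (hc : 0 ≤ c) : NN (c • f) := by
  refine ⟨?_, ?_⟩
  · rw [map_smul, map_smul, ← hf.1]
  · rw [map_smul]; exact smul_nn c hc _ hf.2

lemma NN_zero : NN (0 : Lp ℂ p μ) := by
  refine ⟨?_, ?_⟩
  · rw [map_zero, map_zero]
  · rw [map_zero]

lemma NN_closed : IsClosed {g : Lp ℂ p μ | NN g} := by
  have h1 : IsClosed {g : Lp ℂ p μ | g = ofR (reL g)} :=
    isClosed_eq continuous_id (ofR.continuous.comp reL.continuous)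
  have h2 : IsClosed {g : Lp ℂ p μ | 0 ≤ reL g} := isClosed_le continuous_const reL.continuous
  exact h1.inter h2

/-- positivity -/
def PP (S : Lp ℂ p μ →L[ℂ] Lp ℂ p μ) : Prop := ∀ g, NN g → NN (S g)

lemma PP_of {S : Lp ℂ p μ →L[ℂ] Lp ℂ p μ} (h : Pos S) : PP S := by
  intro g hg
  rw [NN_iff] at hg ⊢
  exact h g hg

/-- the real operator -/
noncomputable def dn (S : Lp ℂ p μ →L[ℂ] Lp ℂ p μ) : Lp ℝ p μ →L[ℝ] Lp ℝ p μ :=
  reL.comp ((S.restrictScalars ℝ).comp ofR)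

lemma dn_apply (S : Lp ℂ p μ →L[ℂ] Lp ℂ p μ) (f : Lp ℝ p μ) : dn S f = reL (S (ofR f)) := rfl

lemma dn_nonneg {S : Lp ℂ p μ →L[ℂ] Lp ℂ p μ} (h : PP S) (f : Lp ℝ p μ) (hf : 0 ≤ f) :
    0 ≤ dn S f := (h _ (NN_ofR hf)).2

lemma dn_eq {S : Lp ℂ p μ →L[ℂ] Lp ℂ p μ} (h : PP S) (f : Lp ℝ p μ) :
    S (ofR f) = ofR (dn S f) := by
  have h1 : ∀ f : Lp ℝ p μ, 0 ≤ f → S (ofR f) = ofR (dn S f) := fun f hf =>
    (h _ (NN_ofR hf)).1
  have h2 : f = f⁺ - f⁻ := (posPart_sub_negPart f).symm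
  rw [h2, map_sub, map_sub, map_sub, map_sub, h1 _ (posPart_nonneg f), h1 _ (negPart_nonneg f)]

lemma dn_pow {S : Lp ℂ p μ →L[ℂ] Lp ℂ p μ} (h : PP S) (n : ℕ) (f : Lp ℝ p μ) :
    (S ^ n) (ofR f) = ofR ((dn S ^ n) f) := by
  induction n with
  | zero => simp
  | succ n ih =>
    rw [pow_succ', pow_succ', mul_apply_eq_comp, mul_apply_eq_comp, ih,
      dn_eq h]

lemma ofR_inj {f g : Lp ℝ p μ} (h : ofR f = ofR g) : f = g := by
  rw [← re_ofR f, h, re_ofR]

/-- powers of `T / 2` tend to zero -/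
lemma pow_tendsto (T : Lp ℂ p μ →L[ℂ] Lp ℂ p μ)
    (hs : spectrum ℂ T ⊆ Metric.closedBall 0 1) :
    Tendsto (fun n : ℕ => ‖T ^ n‖ / 2 ^ n) atTop (𝓝 0) := by
  have h1 : spectralRadius ℂ T ≤ 1 := by
    unfold spectralRadius
    refine iSup₂_le fun k hk => ?_
    have := hs hk
    rw [mem_closedBall_zero_iff] at this
    exact_mod_cast this
  have h2 := spectrum.pow_nnnorm_pow_one_div_tendsto_nhds_spectralRadius T
  have h3 : spectralRadius ℂ T < ((3 / 2 : NNReal) : ℝ≥0∞) := by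
    refine h1.trans_lt ?_
    rw [← ENNReal.coe_one, ENNReal.coe_lt_coe]
    rw [← NNReal.coe_lt_coe]
    norm_num
  have h4 := h2.eventually_lt_const h3
  have h5 : ∀ᶠ n : ℕ in atTop, ‖T ^ n‖ / 2 ^ n ≤ (3 / 4 : ℝ) ^ n := by
    filter_upwards [h4, eventually_gt_atTop 0] with n hn hn0
    have h6 : ((‖T ^ n‖₊ : ℝ≥0∞) ^ (1 / n : ℝ)) ^ (n : ℝ) ≤
        (((3 / 2 : NNReal) : ℝ≥0∞)) ^ (n : ℝ) :=
      ENNReal.rpow_le_rpow hn.le (Nat.cast_nonneg n)
    rw [← ENNReal.rpow_mul, one_div_mul_cancel (by exact_mod_cast hn0.ne'), ENNReal.rpow_one,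
      ENNReal.rpow_natCast, ← ENNReal.coe_pow, ENNReal.coe_le_coe] at h6
    have h7 : ‖T ^ n‖ ≤ (3 / 2 : ℝ) ^ n := by exact_mod_cast h6
    rw [div_le_iff₀ (by positivity)]
    calc ‖T ^ n‖ ≤ (3 / 2 : ℝ) ^ n := h7
      _ = (3 / 4) ^ n * 2 ^ n := by rw [← mul_pow]; norm_num
  have h8 : Tendsto (fun n : ℕ => (3 / 4 : ℝ) ^ n) atTop (𝓝 0) :=
    tendsto_pow_atTop_nhds_zero_of_lt_one (by norm_num) (by norm_num)
  exact squeeze_zero' (Eventually.of_forall fun n => by positivity) h5 h8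

lemma two_notMem {T : Lp ℂ p μ →L[ℂ] Lp ℂ p μ}
    (hs : spectrum ℂ T ⊆ Metric.closedBall 0 1) :
    IsUnit (algebraMap ℂ (Lp ℂ p μ →L[ℂ] Lp ℂ p μ) 2 - T) := by
  by_contra h
  have h1 : (2 : ℂ) ∈ spectrum ℂ T := h
  have h2 := hs h1
  rw [mem_closedBall_zero_iff] at h2
  norm_num at h2

lemma res_apply {T : Lp ℂ p μ →L[ℂ] Lp ℂ p μ}
    (hs : spectrum ℂ T ⊆ Metric.closedBall 0 1) (g : Lp ℂ p μ) :
    T (resolvent T (2 : ℂ) g) = (2 : ℂ) • resolvent T (2 : ℂ) g - g := by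
  have h1 := Ring.mul_inverse_cancel _ (two_notMem hs)
  have h2 := congrArg (fun S : Lp ℂ p μ →L[ℂ] Lp ℂ p μ => S g) h1
  simp only [mul_apply_eq_comp] at h2
  rw [show Ring.inverse (algebraMap ℂ (Lp ℂ p μ →L[ℂ] Lp ℂ p μ) 2 - T) = resolvent T (2 : ℂ)
    from rfl] at h2
  rw [sub_apply, Algebra.algebraMap_eq_smul_one, smul_apply] at h2
  simp only [one_apply_eq_self] at h2
  have h3 := sub_eq_iff_eq_add.1 h2
  rw [h3]; abel

/-- the resolvent at `2` is positive -/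
lemma res_PP {T : Lp ℂ p μ →L[ℂ] Lp ℂ p μ} (h : PP T)
    (hs : spectrum ℂ T ⊆ Metric.closedBall 0 1) : PP (resolvent T (2 : ℂ)) := by
  intro g hg
  set R := resolvent T (2 : ℂ) with hR
  have hTn : ∀ n : ℕ, NN ((T ^ n) g) := by
    intro n
    induction n with
    | zero => simpa using hg
    | succ n ih =>
      rw [pow_succ', mul_apply_eq_comp]
      exact h _ ih
  set S : ℕ → Lp ℂ p μ := fun L => ∑ n ∈ range L, ((1 / 2 : ℝ) ^ (n + 1)) • (T ^ n) g with hS
  have hSN : ∀ L, NN (S L) := by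
    intro L
    induction L with
    | zero => simpa [hS] using (NN_zero : NN (0 : Lp ℂ p μ))
    | succ L ih =>
      simp only [hS] at ih ⊢
      rw [sum_range_succ]
      exact NN_add ih (NN_smul (hTn L) _ (by positivity))
  have hid : ∀ L, R g = S L + ((1 / 2 : ℝ) ^ L) • (T ^ L) (R g) := by
    intro L
    induction L with
    | zero => simp [hS]
    | succ L ih =>
      have h1 : (T ^ (L + 1)) (R g) = (2 : ℝ) • (T ^ L) (R g) - (T ^ L) g := by
        rw [pow_succ, mul_apply_eq_comp, hR, res_apply hs, map_sub, map_smul]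
        rw [two_smul, two_smul]
      rw [h1]
      simp only [hS] at ih ⊢
      rw [sum_range_succ, smul_sub, smul_smul]
      have h2 : (1 / 2 : ℝ) ^ (L + 1) * 2 = (1 / 2) ^ L := by
        rw [pow_succ]; ring
      rw [h2]
      nth_rewrite 1 [ih]
      abel
  have hlim : Tendsto (fun L : ℕ => ((1 / 2 : ℝ) ^ L) • (T ^ L) (R g)) atTop (𝓝 0) := by
    rw [tendsto_zero_iff_norm_tendsto_zero]
    have h1 := (pow_tendsto T hs).mul_const ‖R g‖
    rw [zero_mul] at h1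
    refine squeeze_zero (fun L => norm_nonneg _) (fun L => ?_) h1
    rw [norm_smul, Real.norm_of_nonneg (by positivity)]
    calc (1 / 2 : ℝ) ^ L * ‖(T ^ L) (R g)‖ ≤ (1 / 2 : ℝ) ^ L * (‖T ^ L‖ * ‖R g‖) :=
          mul_le_mul_of_nonneg_left ((T ^ L).le_opNorm _) (by positivity)
      _ = ‖T ^ L‖ / 2 ^ L * ‖R g‖ := by
          rw [div_pow, one_pow]; ring
  have hconv : Tendsto S atTop (𝓝 (R g)) := by
    have h1 : S = fun L => R g - ((1 / 2 : ℝ) ^ L) • (T ^ L) (R g) := by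
      funext L
      rw [eq_sub_iff_add_eq]
      exact (hid L).symm
    rw [h1]
    simpa using (tendsto_const_nhds (x := R g)).sub hlim
  exact NN_closed.mem_of_tendsto hconv (Eventually.of_forall hSN)

lemma w_zero (N : ℕ) : w (N + 1) 0 = (1 / 2) * w N 0 := by
  unfold w
  simp [pow_succ]

lemma w_succ (N k : ℕ) : w (N + 1) (k + 1) = (1 / 2) * w (N + 1) k + (1 / 2) * w N (k + 1) := by
  unfold w
  have h1 : k + 1 + (N + 1) - 1 = k + N + 1 := by omega
  have h2 : k + (N + 1) - 1 = k + N := by omega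
  have h3 : k + 1 + N - 1 = k + N := by omega
  rw [h1, h2, h3, Nat.choose_succ_succ]
  push_cast
  rw [show k + 1 + (N + 1) = k + N + 2 by ring, show k + (N + 1) = k + N + 1 by ring,
    show k + 1 + N = k + N + 1 by ring, pow_succ _ (k + N + 1)]
  field_simp

lemma w_nonneg (N k : ℕ) : 0 ≤ w N k := by unfold w; positivity

/-- partial sums of the negative binomial expansion are dominated by the powers of the
resolvent -/
lemma partial_le (A B : Lp ℝ p μ →L[ℝ] Lp ℝ p μ) (hA : ∀ f, 0 ≤ f → 0 ≤ A f)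
    (hB : ∀ f, 0 ≤ f → 0 ≤ B f) (hAB : ∀ f, A (B f) = (2 : ℝ) • B f - f) (N : ℕ) :
    ∀ f, 0 ≤ f → ∀ n, ∑ k ∈ range n, w N k • (A ^ k) f ≤ (B ^ N) f := by
  have hBN : ∀ N f, 0 ≤ f → 0 ≤ (B ^ N) f := by
    intro N f hf
    induction N with
    | zero => simpa using hf
    | succ N ih => rw [pow_succ', mul_apply_eq_comp]; exact hB _ ih
  have hmono : ∀ f g, f ≤ g → A f ≤ A g := by
    intro f g hfg
    have := hA (g - f) (sub_nonneg.2 hfg)
    rw [map_sub] at this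
    exact sub_nonneg.1 this
  induction N with
  | zero =>
    intro f hf n
    have hw : ∀ k, w 0 (k + 1) = 0 := by
      intro k
      unfold w
      simp
    have hw0 : w 0 0 = 1 := by unfold w; simp
    cases n with
    | zero => simpa using hf
    | succ n =>
      rw [sum_range_succ']
      simp [hw, hw0]
  | succ N ih =>
    intro f hf n
    induction n with
    | zero => simpa using hBN (N + 1) f hf
    | succ n ihn =>
      have h1 : ∑ k ∈ range (n + 1), w (N + 1) k • (A ^ k) f =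
          (1 / 2 : ℝ) • ∑ k ∈ range (n + 1), w N k • (A ^ k) f +
          (1 / 2 : ℝ) • A (∑ k ∈ range n, w (N + 1) k • (A ^ k) f) := by
        rw [sum_range_succ', sum_range_succ' _ n, w_zero, map_sum, smul_add, smul_sum, smul_sum,
          smul_smul]
        have h2 : ∀ k, w (N + 1) (k + 1) • (A ^ (k + 1)) f =
            (1 / 2 : ℝ) • (w N (k + 1) • (A ^ (k + 1)) f) +
            (1 / 2 : ℝ) • A (w (N + 1) k • (A ^ k) f) := by
          intro k
          rw [w_succ, add_smul, map_smul, smul_smul, smul_smul, pow_succ' A k, mul_apply_eq_comp,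
            add_comm]
        rw [sum_congr rfl (fun k _ => h2 k), sum_add_distrib]
        abel
      rw [h1]
      have h3 := smul_mono (1 / 2) (by norm_num) _ _ (ih f hf (n + 1))
      have h4 := smul_mono (1 / 2) (by norm_num) _ _ (hmono _ _ ihn)
      refine (add_le_add h3 h4).trans (le_of_eq ?_)
      rw [pow_succ' B N, mul_apply_eq_comp, hAB, smul_sub, smul_smul]
      norm_num

end Cpx

open Cpx in
theorem cpx : S_cpx.{u} := by
  intro Ω _ μ p _ T hT hSKB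
  obtain ⟨hs, M, hM⟩ := hSKB
  have hPT := PP_of hT
  have hPR := res_PP hPT hs
  set R := resolvent T (2 : ℂ) with hR
  have hRn : ∀ N, ‖R ^ N‖ ≤ max M 1 := by
    intro N
    rcases Nat.eq_zero_or_pos N with h | h
    · rw [h, pow_zero]
      exact (ContinuousLinearMap.norm_id_le).trans (le_max_right _ _)
    · have h1 := hM 2 (by norm_num) N h
      have h2 : (‖(2 : ℂ)‖ - 1) = 1 := by norm_num
      rw [h2, one_pow, div_one] at h1
      exact h1.trans (le_max_left _ _)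
  have hAB : ∀ f, dn T (dn R f) = (2 : ℝ) • dn R f - f := by
    intro f
    apply ofR_inj
    rw [← dn_eq hPT, ← dn_eq hPR, hR, res_apply hs, map_sub, map_smul, ← hR, ← dn_eq hPR,
      two_smul, two_smul]
  refine ⟨dn T, max M 1, fun N f => (dn R ^ N) f, ?_, dn_nonneg hPT, ?_, ?_, ?_⟩
  · exact zero_le_one.trans (le_max_right _ _)
  · intro N f _
    rw [← norm_ofR, ← dn_pow hPR, ← norm_ofR f]
    exact ((R ^ N).le_opNorm _).trans (mul_le_mul_of_nonneg_right (hRn N) (norm_nonneg _))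
  · intro N
    exact partial_le (dn T) (dn R) (dn_nonneg hPT) (dn_nonneg hPR) hAB N
  · intro n
    refine ContinuousLinearMap.opNorm_le_bound _ (by positivity) (fun g => ?_)
    have h1 : (T ^ n) g = ofR ((dn T ^ n) (reL g)) + Complex.I • ofR ((dn T ^ n) (imL g)) := by
      nth_rewrite 1 [decomp g]
      rw [map_add, map_smul, dn_pow hPT, dn_pow hPT]
    rw [h1]
    refine (norm_add_le _ _).trans ?_
    rw [norm_smul, Complex.norm_I, one_mul, norm_ofR, norm_ofR]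
    have h2 := (dn T ^ n).le_opNorm (reL g)
    have h3 := (dn T ^ n).le_opNorm (imL g)
    have h4 := mul_le_mul_of_nonneg_left (norm_re g) (norm_nonneg (dn T ^ n))
    have h5 := mul_le_mul_of_nonneg_left (norm_im g) (norm_nonneg (dn T ^ n))
    linarith

end Pool.Agent.R221.SK
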