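import Pool.Agent.R221.SK.Defs

/-! SK-FWD: the forward window estimate (helper662, for project SK of helper221) -/

namespace Pool.Agent.R221.SK
open MeasureTheory Finset
open scoped ENNReal
universe u

theorem fwd_swap {β : Type*} [AddCommMonoid β] (a : ℕ → β) (l m : ℕ) :
    ∑ i ∈ range (l + 1), (if i < m then a i else 0) =
      ∑ i ∈ range m, (if i ≤ l then a i else 0) := by
  rw [← Finset.sum_filter, ← Finset.sum_filter]
  congr 1
  ext i
  simp only [mem_filter, mem_range]
  omega

theorem fwd (h : S_cheb) : S_fwd.{u} := by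
  intro E _ _ p hp T M hM hyp f N σ hNσ
  have hp0 : 0 < p := by linarith
  set F : ℕ → E := fun i => if i < 4 * σ then (T ^ i) f else 0 with hF
  have h1 := hyp N F (N + 3 * σ)
  -- the right side
  have h2 : ∑ i ∈ range (N + 3 * σ), ‖F i‖ ^ p ≤ ∑ i ∈ range (4 * σ), ‖(T ^ i) f‖ ^ p := by
    have e1 : ∀ i, ‖F i‖ ^ p = if i < 4 * σ then ‖(T ^ i) f‖ ^ p else 0 := by
      intro i
      rw [hF]
      by_cases hi : i < 4 * σ
      · simp only [hi, if_true]
      · simp only [hi, if_false, norm_zero]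
        exact Real.zero_rpow hp0.ne'
    rw [Finset.sum_congr rfl fun i _ => e1 i, ← Finset.sum_filter]
    apply Finset.sum_le_sum_of_subset_of_nonneg
    · intro i hi
      rw [mem_filter] at hi
      exact mem_range.2 hi.2
    · intro i _ _
      positivity
  -- the left side
  have h3 : ∀ l ∈ Ico (N + σ) (N + 3 * σ), ‖(T ^ l) f‖ ^ p ≤
      2 ^ p * ‖∑ i ∈ range (l + 1), w N (l - i) • (T ^ (l - i)) (F i)‖ ^ p := by
    intro l hl
    rw [mem_Ico] at hl
    have hc := h N σ l hNσ hl.1 hl.2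
    have e1 : ∑ i ∈ range (l + 1), w N (l - i) • (T ^ (l - i)) (F i) =
        (∑ i ∈ range (4 * σ), (if i ≤ l then w N (l - i) else 0)) • (T ^ l) f := by
      rw [← fwd_swap, Finset.sum_smul]
      refine Finset.sum_congr rfl fun i hi => ?_
      rw [mem_range] at hi
      by_cases h4 : i < 4 * σ
      · have e2 : (T ^ (l - i)) ((T ^ i) f) = (T ^ l) f := by
          rw [← ContinuousLinearMap.mul_apply, ← pow_add, Nat.sub_add_cancel (by omega)]
        simp only [hF, h4, if_true, e2]
      · simp only [hF, h4, if_false, map_zero, smul_zero, zero_smul]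
    rw [e1, norm_smul, ← Real.mul_rpow (by norm_num) (by positivity)]
    apply Real.rpow_le_rpow (norm_nonneg _) _ hp0.le
    rw [Real.norm_eq_abs]
    have h5 := hc.trans (le_abs_self _)
    nlinarith [norm_nonneg ((T ^ l) f)]
  calc ∑ l ∈ Ico (N + σ) (N + 3 * σ), ‖(T ^ l) f‖ ^ p
      ≤ ∑ l ∈ Ico (N + σ) (N + 3 * σ),
          2 ^ p * ‖∑ i ∈ range (l + 1), w N (l - i) • (T ^ (l - i)) (F i)‖ ^ p :=
        Finset.sum_le_sum h3
    _ = 2 ^ p * ∑ l ∈ Ico (N + σ) (N + 3 * σ),
          ‖∑ i ∈ range (l + 1), w N (l - i) • (T ^ (l - i)) (F i)‖ ^ p := by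
        rw [Finset.mul_sum]
    _ ≤ 2 ^ p * ∑ l ∈ range (N + 3 * σ),
          ‖∑ i ∈ range (l + 1), w N (l - i) • (T ^ (l - i)) (F i)‖ ^ p := by
        apply mul_le_mul_of_nonneg_left _ (by positivity)
        apply Finset.sum_le_sum_of_subset_of_nonneg
        · intro l hl
          rw [mem_Ico] at hl
          exact mem_range.2 hl.2
        · intro l _ _
          positivity
    _ ≤ 2 ^ p * (M ^ p * ∑ i ∈ range (4 * σ), ‖(T ^ i) f‖ ^ p) := by
        apply mul_le_mul_of_nonneg_left _ (by positivity)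
        exact h1.trans (mul_le_mul_of_nonneg_left h2 (by positivity))
    _ = (2 * M) ^ p * ∑ i ∈ range (4 * σ), ‖(T ^ i) f‖ ^ p := by
        rw [Real.mul_rpow (by norm_num) hM]
        ring

end Pool.Agent.R221.SK
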