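import Mathlib

namespace Pool.Agent.R221.SK.Lv
open MeasureTheory Finset
open scoped ENNReal
universe u

/-- shifted Hoelder -/
theorem hol {p q : ℝ} (hpq : p.HolderConjugate q) (a b : ℕ → ℝ) (n k : ℕ) :
    ∑ i ∈ range (n - k), b (k + i) * a i ≤
      (∑ l ∈ range n, |b l| ^ q) ^ (1 / q) * (∑ i ∈ range n, |a i| ^ p) ^ (1 / p) := by
  have h1 := Real.inner_le_Lp_mul_Lq (range (n - k)) (fun i => b (k + i)) a hpq.symm
  refine h1.trans ?_
  have hq : 0 < q := hpq.symm.pos
  have hp : 0 < p := hpq.pos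
  have hA : ∑ i ∈ range (n - k), |b (k + i)| ^ q ≤ ∑ l ∈ range n, |b l| ^ q := by
    rw [← Finset.sum_Ico_eq_sum_range (fun l => |b l| ^ q) k n]
    apply Finset.sum_le_sum_of_subset_of_nonneg
    · intro x hx
      simp only [Finset.mem_Ico, Finset.mem_range] at hx ⊢
      exact hx.2
    · intro i _ _
      positivity
  have hB : ∑ i ∈ range (n - k), |a i| ^ p ≤ ∑ i ∈ range n, |a i| ^ p := by
    apply Finset.sum_le_sum_of_subset_of_nonneg
    · intro x hx
      simp only [Finset.mem_range] at hx ⊢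
      omega
    · intro i _ _
      positivity
  have h0A : 0 ≤ ∑ i ∈ range (n - k), |b (k + i)| ^ q := Finset.sum_nonneg fun i _ => by positivity
  have h0B : 0 ≤ ∑ i ∈ range (n - k), |a i| ^ p := Finset.sum_nonneg fun i _ => by positivity
  have e1 := Real.rpow_le_rpow h0A hA (by positivity : (0:ℝ) ≤ 1 / q)
  have e2 := Real.rpow_le_rpow h0B hB (by positivity : (0:ℝ) ≤ 1 / p)
  exact mul_le_mul e1 e2 (by positivity) (by positivity)

/-- norming: if `∑ b h ≤ ‖b‖_q U` for all rational vectors then `∑ |h|^p ≤ |U|^p`. -/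
theorem norming {p q : ℝ} (hpq : p.HolderConjugate q) (n : ℕ) (h : Fin n → ℝ) (U : ℝ)
    (H : ∀ r : Fin n → ℚ, ∑ l, (r l : ℝ) * h l ≤ (∑ l, |(r l : ℝ)| ^ q) ^ (1 / q) * U) :
    ∑ l, |h l| ^ p ≤ |U| ^ p := by
  have hq : 0 < q := hpq.symm.pos
  have hp : 0 < p := hpq.pos
  have hall : ∀ b : Fin n → ℝ, ∑ l, b l * h l ≤ (∑ l, |b l| ^ q) ^ (1 / q) * U := by
    intro b
    have hd : DenseRange (fun r : Fin n → ℚ => fun l => ((r l : ℚ) : ℝ)) :=
      DenseRange.piMap (fun _ => Rat.denseRange_cast)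
    have hc : IsClosed {b : Fin n → ℝ | ∑ l, b l * h l ≤ (∑ l, |b l| ^ q) ^ (1 / q) * U} := by
      apply isClosed_le
      · fun_prop
      · apply Continuous.mul _ continuous_const
        apply Continuous.rpow_const
        · apply continuous_finsetSum
          intro i _
          apply Continuous.rpow_const
          · fun_prop
          · intro x; right; exact hq.le
        · intro x; right; positivity
    have hsub : Set.range (fun r : Fin n → ℚ => fun l => ((r l : ℚ) : ℝ)) ⊆
        {b : Fin n → ℝ | ∑ l, b l * h l ≤ (∑ l, |b l| ^ q) ^ (1 / q) * U} := by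
      rintro _ ⟨r, rfl⟩
      exact H r
    have := hc.closure_subset_iff.2 hsub
    rw [hd.closure_range] at this
    exact this (Set.mem_univ b)
  set S : ℝ := ∑ l, |h l| ^ p with hS
  have hS0 : 0 ≤ S := Finset.sum_nonneg fun i _ => by positivity
  rcases hS0.eq_or_lt with h0 | hpos
  · rw [← h0]; positivity
  have key := hall (fun l => SignType.sign (h l) * |h l| ^ (p - 1))
  have e1 : ∀ l, ((SignType.sign (h l) : ℝ) * |h l| ^ (p - 1)) * h l = |h l| ^ p := by
    intro l
    by_cases hz : h l = 0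
    · simp [hz, Real.zero_rpow hp.ne']
    · have hz' : 0 < |h l| := abs_pos.2 hz
      have : (SignType.sign (h l) : ℝ) * h l = |h l| := by
        rcases lt_or_gt_of_ne hz with h1 | h1
        · simp [sign_neg h1, abs_of_neg h1]
        · simp [sign_pos h1, abs_of_pos h1]
      calc ((SignType.sign (h l) : ℝ) * |h l| ^ (p - 1)) * h l
          = |h l| ^ (p - 1) * ((SignType.sign (h l) : ℝ) * h l) := by ring
        _ = |h l| ^ (p - 1) * |h l| ^ (1 : ℝ) := by rw [this, Real.rpow_one]
        _ = |h l| ^ p := by rw [← Real.rpow_add hz']; congr 1; ring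
  have e2 : ∀ l, |(SignType.sign (h l) : ℝ) * |h l| ^ (p - 1)| ^ q ≤ |h l| ^ p := by
    intro l
    by_cases hz : h l = 0
    · simp [hz, Real.zero_rpow hp.ne', Real.zero_rpow hq.ne']
    · have hz' : 0 < |h l| := abs_pos.2 hz
      have hs : |(SignType.sign (h l) : ℝ)| = 1 := by
        rcases lt_or_gt_of_ne hz with h1 | h1
        · simp [sign_neg h1]
        · simp [sign_pos h1]
      rw [abs_mul, hs, one_mul, abs_of_pos (Real.rpow_pos_of_pos hz' _), ← Real.rpow_mul hz'.le]
      rw [hpq.sub_one_mul_conj]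
  simp only [e1] at key
  have e3 : (∑ l, |(SignType.sign (h l) : ℝ) * |h l| ^ (p - 1)| ^ q) ^ (1 / q) ≤ S ^ (1 / q) := by
    apply Real.rpow_le_rpow (Finset.sum_nonneg fun i _ => by positivity)
      (Finset.sum_le_sum fun l _ => e2 l) (by positivity)
  have hU : 0 < U := by
    by_contra hU
    replace hU := not_lt.1 hU
    have : (∑ l, |(SignType.sign (h l) : ℝ) * |h l| ^ (p - 1)| ^ q) ^ (1 / q) * U ≤ 0 :=
      mul_nonpos_of_nonneg_of_nonpos (by positivity) hU
    linarith
  have e4 : S ≤ S ^ (1 / q) * U := key.trans (mul_le_mul_of_nonneg_right e3 hU.le)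
  have e5 : S ^ (1 / p) ≤ U := by
    have hpq1 : 1 / p + 1 / q = 1 := by
      have := hpq.inv_add_inv_eq_one
      simpa [one_div] using this
    have hsplit : S = S ^ (1 / q) * S ^ (1 / p) := by
      rw [← Real.rpow_add hpos, add_comm, hpq1, Real.rpow_one]
    have hq' : 0 < S ^ (1 / q) := Real.rpow_pos_of_pos hpos _
    have : S ^ (1 / q) * S ^ (1 / p) ≤ S ^ (1 / q) * U := by rw [← hsplit]; exact e4
    exact le_of_mul_le_mul_left this hq'
  calc S = (S ^ (1 / p)) ^ p := by
        rw [← Real.rpow_mul hpos.le, one_div, inv_mul_cancel₀ hp.ne', Real.rpow_one]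
    _ ≤ U ^ p := Real.rpow_le_rpow (by positivity) e5 hp.le
    _ = |U| ^ p := by rw [abs_of_pos hU]

end Pool.Agent.R221.SK.Lv
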