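import Mathlib
import Pool.Agent.R221.SK.LvA

namespace Pool.Agent.R221.SK.Lv
open MeasureTheory Finset
open scoped ENNReal
universe u

variable {Ω : Type u} [MeasurableSpace Ω] {μ : Measure Ω}

theorem nrm {p : ℝ} (hp : 0 < p) (g : Lp ℝ (ENNReal.ofReal p) μ) :
    ENNReal.ofReal (‖g‖ ^ p) = ∫⁻ x, ENNReal.ofReal (|g x| ^ p) ∂μ := by
  have h0 : ENNReal.ofReal p ≠ 0 := by simpa using hp
  have h1 : ENNReal.ofReal p ≠ ⊤ := ENNReal.ofReal_ne_top
  have h2 : (ENNReal.ofReal p).toReal = p := ENNReal.toReal_ofReal hp.le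
  have hfin : eLpNorm g (ENNReal.ofReal p) μ ≠ ⊤ := Lp.eLpNorm_ne_top g
  rw [Lp.norm_def, ← ENNReal.ofReal_rpow_of_nonneg ENNReal.toReal_nonneg hp.le,
    ENNReal.ofReal_toReal hfin, eLpNorm_eq_lintegral_rpow_enorm_toReal h0 h1, h2,
    ← ENNReal.rpow_mul, one_div, inv_mul_cancel₀ hp.ne', ENNReal.rpow_one]
  apply lintegral_congr
  intro x
  rw [← ENNReal.ofReal_rpow_of_nonneg (abs_nonneg _) hp.le, ← Real.norm_eq_abs,
    ofReal_norm]

/-- the `ℓ^p` combination of finitely many functions -/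
theorem exPhi {p : ℝ} (hp : 1 < p) (f : ℕ → Lp ℝ (ENNReal.ofReal p) μ) (n : ℕ) :
    ∃ Φ : Lp ℝ (ENNReal.ofReal p) μ,
      (∀ᵐ x ∂μ, Φ x = (∑ i ∈ range n, |f i x| ^ p) ^ (1 / p)) := by
  have hp0 : 0 < p := by linarith
  have h0 : ENNReal.ofReal p ≠ 0 := by simpa using hp0
  have h1 : ENNReal.ofReal p ≠ ⊤ := ENNReal.ofReal_ne_top
  have h2 : (ENNReal.ofReal p).toReal = p := ENNReal.toReal_ofReal hp0.le
  have hmeas : AEStronglyMeasurable (fun x => (∑ i ∈ range n, |f i x| ^ p) ^ (1 / p)) μ := by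
    have hm : AEMeasurable (fun x => (∑ i ∈ range n, |f i x| ^ p) ^ (1 / p)) μ := by
      apply AEMeasurable.pow_const
      apply Finset.aemeasurable_fun_sum
      intro i _
      apply AEMeasurable.pow_const
      exact (Lp.aestronglyMeasurable (f i)).aemeasurable.abs
    exact hm.aestronglyMeasurable
  have hmem : MemLp (fun x => (∑ i ∈ range n, |f i x| ^ p) ^ (1 / p)) (ENNReal.ofReal p) μ := by
    refine ⟨hmeas, ?_⟩
    rw [eLpNorm_lt_top_iff_lintegral_rpow_enorm_lt_top h0 h1, h2]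
    have e : ∀ x, ‖(∑ i ∈ range n, |f i x| ^ p) ^ (1 / p)‖ₑ ^ p =
        ∑ i ∈ range n, ENNReal.ofReal (|f i x| ^ p) := by
      intro x
      have hS : 0 ≤ ∑ i ∈ range n, |f i x| ^ p := Finset.sum_nonneg fun i _ => by positivity
      rw [← ofReal_norm, Real.norm_eq_abs, abs_of_nonneg (by positivity),
        ENNReal.ofReal_rpow_of_nonneg (by positivity) hp0.le, ← Real.rpow_mul hS, one_div,
        inv_mul_cancel₀ hp0.ne', Real.rpow_one, ENNReal.ofReal_sum_of_nonneg]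
      intro i _
      positivity
    simp only [e]
    rw [lintegral_finsetSum']
    · apply ENNReal.sum_lt_top.2
      intro i _
      rw [← nrm hp0 (f i)]
      exact ENNReal.ofReal_lt_top
    · intro i _
      apply AEMeasurable.ennreal_ofReal
      apply AEMeasurable.pow_const
      exact (Lp.aestronglyMeasurable (f i)).aemeasurable.abs
  exact ⟨hmem.toLp _, hmem.coeFn_toLp⟩

theorem normPhi {p : ℝ} (hp : 1 < p) [Fact (1 ≤ ENNReal.ofReal p)] (f : ℕ → Lp ℝ (ENNReal.ofReal p) μ) (n : ℕ)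
    (Φ : Lp ℝ (ENNReal.ofReal p) μ)
    (hΦ : ∀ᵐ x ∂μ, Φ x = (∑ i ∈ range n, |f i x| ^ p) ^ (1 / p)) :
    ‖Φ‖ ^ p = ∑ i ∈ range n, ‖f i‖ ^ p := by
  have hp0 : 0 < p := by linarith
  have e : ∫⁻ x, ENNReal.ofReal (|Φ x| ^ p) ∂μ =
      ∑ i ∈ range n, ∫⁻ x, ENNReal.ofReal (|f i x| ^ p) ∂μ := by
    rw [← lintegral_finsetSum']
    · apply lintegral_congr_ae
      filter_upwards [hΦ] with x hx
      have hS : 0 ≤ ∑ i ∈ range n, |f i x| ^ p := Finset.sum_nonneg fun i _ => by positivity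
      rw [hx, abs_of_nonneg (by positivity), ← Real.rpow_mul hS, one_div,
        inv_mul_cancel₀ hp0.ne', Real.rpow_one, ENNReal.ofReal_sum_of_nonneg]
      intro i _
      positivity
    · intro i _
      apply AEMeasurable.ennreal_ofReal
      apply AEMeasurable.pow_const
      exact (Lp.aestronglyMeasurable (f i)).aemeasurable.abs
  simp only [← nrm hp0] at e
  rw [← ENNReal.ofReal_sum_of_nonneg (fun i _ => by positivity)] at e
  exact (ENNReal.ofReal_eq_ofReal_iff (by positivity)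
    (Finset.sum_nonneg fun i _ => by positivity)).1 e

theorem powpos {p : ℝ≥0∞} [Fact (1 ≤ p)] (T : Lp ℝ p μ →L[ℝ] Lp ℝ p μ)
    (hT : ∀ f, 0 ≤ f → 0 ≤ T f) (k : ℕ) : ∀ f, 0 ≤ f → 0 ≤ (T ^ k) f := by
  induction k with
  | zero => intro f hf; simpa using hf
  | succ k ih => intro f hf; rw [pow_succ]; exact ih _ (hT _ hf)

theorem powmono {p : ℝ≥0∞} [Fact (1 ≤ p)] (T : Lp ℝ p μ →L[ℝ] Lp ℝ p μ)
    (hT : ∀ f, 0 ≤ f → 0 ≤ T f) (k : ℕ) {f g : Lp ℝ p μ} (h : f ≤ g) :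
    (T ^ k) f ≤ (T ^ k) g := by
  have := powpos T hT k (g - f) (sub_nonneg.2 h)
  rw [map_sub] at this
  exact sub_nonneg.1 this

theorem smulmono {p : ℝ≥0∞} [Fact (1 ≤ p)] {c : ℝ} (hc : 0 ≤ c) {f g : Lp ℝ p μ} (h : f ≤ g) :
    c • f ≤ c • g := by
  rw [← Lp.coeFn_le] at h ⊢
  filter_upwards [h, Lp.coeFn_smul c f, Lp.coeFn_smul c g] with x h1 h2 h3
  rw [h2, h3]
  simpa using mul_le_mul_of_nonneg_left h1 hc

/-- the combinatorial rearrangement and domination -/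
theorem comb_le {p q : ℝ} (hpq : p.HolderConjugate q) [Fact (1 ≤ ENNReal.ofReal p)]
    (T : Lp ℝ (ENNReal.ofReal p) μ →L[ℝ] Lp ℝ (ENNReal.ofReal p) μ)
    (hT : ∀ f, 0 ≤ f → 0 ≤ T f) (v : ℕ → ℝ) (hv : ∀ k, 0 ≤ v k)
    (f : ℕ → Lp ℝ (ENNReal.ofReal p) μ) (n : ℕ) (Φ U : Lp ℝ (ENNReal.ofReal p) μ)
    (hΦ : ∀ᵐ x ∂μ, Φ x = (∑ i ∈ range n, |f i x| ^ p) ^ (1 / p))
    (hU : ∑ k ∈ range n, v k • (T ^ k) Φ ≤ U) (b : ℕ → ℝ) :
    ∑ l ∈ range n, b l • ∑ i ∈ range (l + 1), v (l - i) • (T ^ (l - i)) (f i) ≤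
      (∑ l ∈ range n, |b l| ^ q) ^ (1 / q) • U := by
  set Bq : ℝ := (∑ l ∈ range n, |b l| ^ q) ^ (1 / q) with hBq
  have hB0 : 0 ≤ Bq := Real.rpow_nonneg (Finset.sum_nonneg fun i _ => by positivity) _
  have e1 : ∑ l ∈ range n, b l • ∑ i ∈ range (l + 1), v (l - i) • (T ^ (l - i)) (f i) =
      ∑ k ∈ range n, v k • (T ^ k) (∑ i ∈ range (n - k), b (k + i) • f i) := by
    simp only [Finset.smul_sum, map_sum, map_smul]
    rw [Finset.sum_sigma', Finset.sum_sigma']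
    apply Finset.sum_bij' (fun (a : (_ : ℕ) × ℕ) _ => (⟨a.1 - a.2, a.2⟩ : (_ : ℕ) × ℕ))
      (fun (a : (_ : ℕ) × ℕ) _ => (⟨a.1 + a.2, a.2⟩ : (_ : ℕ) × ℕ))
    · rintro ⟨l, i⟩ h
      simp only [Finset.mem_sigma, Finset.mem_range] at h ⊢
      omega
    · rintro ⟨k, i⟩ h
      simp only [Finset.mem_sigma, Finset.mem_range] at h ⊢
      omega
    · rintro ⟨l, i⟩ h
      simp only [Finset.mem_sigma, Finset.mem_range] at h
      simp only [Sigma.mk.injEq, heq_eq_eq, and_true]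
      omega
    · rintro ⟨k, i⟩ h
      simp
    · rintro ⟨l, i⟩ h
      simp only [Finset.mem_sigma, Finset.mem_range] at h
      have : l - i + i = l := by omega
      simp only [this]
      rw [smul_comm]
  rw [e1]
  have e2 : ∀ k ∈ range n, v k • (T ^ k) (∑ i ∈ range (n - k), b (k + i) • f i) ≤
      v k • (T ^ k) (Bq • Φ) := by
    intro k _
    apply smulmono (hv k)
    apply powmono T hT
    rw [← Lp.coeFn_le]
    have hs : ∀ᵐ x ∂μ, ∀ i : ℕ, (b (k + i) • f i : Lp ℝ (ENNReal.ofReal p) μ) x =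
        b (k + i) * f i x := by
      rw [ae_all_iff]
      intro i
      filter_upwards [Lp.coeFn_smul (b (k + i)) (f i)] with x hx
      rw [hx]; rfl
    filter_upwards [Lp.coeFn_finsetSum (range (n - k)) (fun i => b (k + i) • f i),
      Lp.coeFn_smul Bq Φ, hΦ, hs] with x h1 h2 h3 h4
    rw [h1, h2, Finset.sum_apply]
    simp only [h4, Pi.smul_apply, smul_eq_mul, h3]
    exact hol hpq (fun i => f i x) b n k
  refine (Finset.sum_le_sum e2).trans ?_
  simp only [map_smul]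
  have e3 : ∑ k ∈ range n, v k • Bq • (T ^ k) Φ = Bq • ∑ k ∈ range n, v k • (T ^ k) Φ := by
    rw [Finset.smul_sum]
    exact Finset.sum_congr rfl fun k _ => smul_comm _ _ _
  rw [e3]
  exact smulmono hB0 hU

end Pool.Agent.R221.SK.Lv
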