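import Mathlib
import Pool.Agent.R221.SK.Defs
import Pool.Agent.R221.SK.LvB

namespace Pool.Agent.R221.SK
open MeasureTheory Finset
open scoped ENNReal
universe u

theorem level : S_level.{u} := by
  intro Ω mΩ μ p hp hF T K M v hT hM hv hKn hK f n
  have hp0 : 0 < p := by linarith
  have hpq : p.HolderConjugate (Real.conjExponent p) := Real.HolderConjugate.conjExponent hp
  set q := Real.conjExponent p
  obtain ⟨Φ, hΦ⟩ := Lv.exPhi hp f n
  have hΦ0 : 0 ≤ Φ := by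
    rw [← Lp.coeFn_nonneg]
    filter_upwards [hΦ] with x hx
    rw [hx]
    exact Real.rpow_nonneg (Finset.sum_nonneg fun i _ => by positivity) _
  set U := K Φ with hUdef
  have hUn : ‖U‖ ≤ M * ‖Φ‖ := hKn Φ hΦ0
  set h : ℕ → Lp ℝ (ENNReal.ofReal p) μ :=
    fun l => ∑ i ∈ range (l + 1), v (l - i) • (T ^ (l - i)) (f i) with hh
  have hmain : ∀ b : ℕ → ℝ, ∑ l ∈ range n, b l • h l ≤
      (∑ l ∈ range n, |b l| ^ q) ^ (1 / q) • U := fun b =>
    Lv.comb_le hpq T hT v hv f n Φ U hΦ (hK Φ hΦ0 n) b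
  have hae : ∀ᵐ x ∂μ, ∀ r : Fin n → ℚ, ∑ l : Fin n, (r l : ℝ) * h l x ≤
      (∑ l : Fin n, |(r l : ℝ)| ^ q) ^ (1 / q) * U x := by
    rw [ae_all_iff]
    intro r
    set b : ℕ → ℝ := fun l => if hl : l < n then (r ⟨l, hl⟩ : ℝ) else 0 with hb
    have h1 := hmain b
    rw [← Lp.coeFn_le] at h1
    have hs : ∀ᵐ x ∂μ, ∀ l : ℕ, (b l • h l : Lp ℝ (ENNReal.ofReal p) μ) x = b l * h l x := by
      rw [ae_all_iff]
      intro l
      filter_upwards [Lp.coeFn_smul (b l) (h l)] with x hx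
      rw [hx]; rfl
    filter_upwards [h1, Lp.coeFn_finsetSum (range n) (fun l => b l • h l),
      Lp.coeFn_smul ((∑ l ∈ range n, |b l| ^ q) ^ (1 / q)) U, hs] with x e1 e2 e3 e4
    rw [e2, e3, Finset.sum_apply] at e1
    simp only [e4, Pi.smul_apply, smul_eq_mul] at e1
    rw [Finset.sum_range, Finset.sum_range] at e1
    simpa [hb] using e1
  have hpt : ∀ᵐ x ∂μ, ∑ l ∈ range n, |h l x| ^ p ≤ |U x| ^ p := by
    filter_upwards [hae] with x hx
    rw [Finset.sum_range]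
    exact Lv.norming hpq n (fun l => h l x) (U x) hx
  have hlint : ∑ l ∈ range n, ∫⁻ x, ENNReal.ofReal (|h l x| ^ p) ∂μ ≤
      ∫⁻ x, ENNReal.ofReal (|U x| ^ p) ∂μ := by
    rw [← lintegral_finsetSum']
    · apply lintegral_mono_ae
      filter_upwards [hpt] with x hx
      rw [← ENNReal.ofReal_sum_of_nonneg (fun i _ => by positivity)]
      exact ENNReal.ofReal_le_ofReal hx
    · intro i _
      apply AEMeasurable.ennreal_ofReal
      apply AEMeasurable.pow_const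
      exact (Lp.aestronglyMeasurable (h i)).aemeasurable.abs
  simp only [← Lv.nrm hp0] at hlint
  rw [← ENNReal.ofReal_sum_of_nonneg (fun i _ => by positivity)] at hlint
  have h2 : ∑ l ∈ range n, ‖h l‖ ^ p ≤ ‖U‖ ^ p :=
    (ENNReal.ofReal_le_ofReal_iff (by positivity)).1 hlint
  calc ∑ l ∈ range n, ‖h l‖ ^ p ≤ ‖U‖ ^ p := h2
    _ ≤ (M * ‖Φ‖) ^ p := Real.rpow_le_rpow (norm_nonneg _) hUn hp0.le
    _ = M ^ p * ‖Φ‖ ^ p := Real.mul_rpow hM (norm_nonneg _)
    _ = M ^ p * ∑ i ∈ range n, ‖f i‖ ^ p := by rw [Lv.normPhi hp f n Φ hΦ]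

end Pool.Agent.R221.SK
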