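import Mathlib
import Pool.Agent.R221.SK.Defs
import Pool.Agent.R221.SK.Level

namespace Pool.Agent.R221.SK
open MeasureTheory Finset
open scoped ENNReal
universe u

theorem w_nonneg (N k : ℕ) : 0 ≤ w N k := by unfold w; positivity

/-- Real part of the argument. -/
theorem realPart (hlev : S_level.{u}) (hfwd : S_fwd.{u}) (hbwd : S_bwd.{u}) (hrec : S_rec)
    (hcomb : S_comb.{u}) {Ω : Type u} [MeasurableSpace Ω] (μ : Measure Ω) (p : ℝ) (hp : 1 < p)
    [Fact (1 ≤ ENNReal.ofReal p)]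
    (A : Lp ℝ (ENNReal.ofReal p) μ →L[ℝ] Lp ℝ (ENNReal.ofReal p) μ) (M : ℝ)
    (K : ℕ → Lp ℝ (ENNReal.ofReal p) μ → Lp ℝ (ENNReal.ofReal p) μ) (hM : 0 ≤ M)
    (hA : ∀ f, 0 ≤ f → 0 ≤ A f) (hKn : ∀ N f, 0 ≤ f → ‖K N f‖ ≤ M * ‖f‖)
    (hK : ∀ N f, 0 ≤ f → ∀ n, ∑ k ∈ range n, w N k • (A ^ k) f ≤ K N f) :
    ∃ (D : ℝ) (κ : ℕ), ∀ n : ℕ, 1 ≤ n → ‖A ^ n‖ ≤ D * (1 + Real.log n) ^ κ := by
  have hp0 : 0 < p := by linarith
  have hpq : p.HolderConjugate (Real.conjExponent p) := Real.HolderConjugate.conjExponent hp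
  set q := Real.conjExponent p with hq
  have hq0 : 0 < q := hpq.symm.pos
  have L := fun N => hlev Ω μ p hp A (K N) M (w N) hA hM (w_nonneg N) (hKn N) (hK N)
  have F1 := hfwd _ p hp A M hM L
  have B1 := hbwd _ p q hpq A M hM L
  set a : ℝ := max ‖A‖ 1 with ha
  have ha1 : 1 ≤ a := le_max_right _ _
  have haA : ‖A‖ ≤ a := le_max_left _ _
  have hpow : ∀ i : ℕ, ‖A ^ i‖ ≤ a ^ i := by
    intro i
    induction i with
    | zero =>
      simp only [pow_zero]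
      exact ContinuousLinearMap.norm_id_le
    | succ i ih =>
      rw [pow_succ, pow_succ]
      exact (ContinuousLinearMap.opNorm_comp_le _ _).trans
        (mul_le_mul ih haA (norm_nonneg _) (by positivity))
  obtain ⟨D1, κ1, H1⟩ := hrec (max ((2 * M) ^ p) 1) (a ^ p) (le_max_right _ _)
    (Real.one_le_rpow ha1 hp0.le)
  obtain ⟨D2, κ2, H2⟩ := hrec (max ((2 * M) ^ q) 1) (a ^ q) (le_max_right _ _)
    (Real.one_le_rpow ha1 hq0.le)
  set D : ℝ := max (max D1 D2) 0 with hD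
  have hD0 : 0 ≤ D := le_max_right _ _
  have hD1 : D1 ≤ D := (le_max_left _ _).trans (le_max_left _ _)
  have hD2 : D2 ≤ D := (le_max_right _ _).trans (le_max_left _ _)
  have lift : ∀ (D' : ℝ) (κ' κ : ℕ) (n : ℕ) (x : ℝ), 1 ≤ n → 0 ≤ x → D' ≤ D → κ' ≤ κ →
      D' * n * (1 + Real.log n) ^ κ' * x ≤ D * n * (1 + Real.log n) ^ κ * x := by
    intro D' κ' κ n x hn hx hD' hκ
    have hlog : 0 ≤ Real.log n := Real.log_nonneg (by exact_mod_cast hn)
    have h1 : (1:ℝ) ≤ 1 + Real.log n := by linarith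
    apply mul_le_mul_of_nonneg_right _ hx
    have e1 : (1 + Real.log n) ^ κ' ≤ (1 + Real.log n) ^ κ := pow_le_pow_right₀ h1 hκ
    calc D' * n * (1 + Real.log n) ^ κ' ≤ D * n * (1 + Real.log n) ^ κ' := by
          apply mul_le_mul_of_nonneg_right _ (by positivity)
          exact mul_le_mul_of_nonneg_right hD' (by positivity)
      _ ≤ D * n * (1 + Real.log n) ^ κ := mul_le_mul_of_nonneg_left e1 (by positivity)
  obtain ⟨D', κ', H⟩ := hcomb _ p q hpq A D (κ1 + κ2) hD0 (by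
    intro f n hn
    have h := H1 (fun i => ‖(A ^ i) f‖ ^ p) (fun i => by positivity) (by
      intro i
      simp only [pow_zero, ContinuousLinearMap.one_apply]
      have e : ‖(A ^ i) f‖ ≤ a ^ i * ‖f‖ :=
        ((A ^ i).le_opNorm f).trans (mul_le_mul_of_nonneg_right (hpow i) (norm_nonneg _))
      calc ‖(A ^ i) f‖ ^ p ≤ (a ^ i * ‖f‖) ^ p := Real.rpow_le_rpow (norm_nonneg _) e hp0.le
        _ = (a ^ p) ^ i * ‖f‖ ^ p := by
          rw [Real.mul_rpow (by positivity) (norm_nonneg _)]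
          congr 1
          rw [← Real.rpow_natCast, ← Real.rpow_natCast, ← Real.rpow_mul (by positivity),
            ← Real.rpow_mul (by positivity), mul_comm])
      (by
        intro N σ hN
        refine (F1 f N σ hN).trans ?_
        exact mul_le_mul_of_nonneg_right (le_max_left _ _)
          (Finset.sum_nonneg fun i _ => by positivity)) n hn
    refine h.trans ?_
    simp only [pow_zero, ContinuousLinearMap.one_apply]
    exact lift D1 κ1 (κ1 + κ2) n _ hn (by positivity) hD1 (Nat.le_add_right _ _))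
    (by
    intro g n hn
    have h := H2 (fun i => ‖g.comp (A ^ i)‖ ^ q) (fun i => by positivity) (by
      intro i
      have e0 : g.comp (A ^ 0) = g := by ext x; simp
      simp only [e0]
      have e : ‖g.comp (A ^ i)‖ ≤ a ^ i * ‖g‖ := by
        refine (ContinuousLinearMap.opNorm_comp_le _ _).trans ?_
        rw [mul_comm]
        exact mul_le_mul_of_nonneg_right (hpow i) (norm_nonneg _)
      calc ‖g.comp (A ^ i)‖ ^ q ≤ (a ^ i * ‖g‖) ^ q := Real.rpow_le_rpow (norm_nonneg _) e hq0.le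
        _ = (a ^ q) ^ i * ‖g‖ ^ q := by
          rw [Real.mul_rpow (by positivity) (norm_nonneg _)]
          congr 1
          rw [← Real.rpow_natCast, ← Real.rpow_natCast, ← Real.rpow_mul (by positivity),
            ← Real.rpow_mul (by positivity), mul_comm])
      (by
        intro N σ hN
        refine (B1 g N σ hN).trans ?_
        exact mul_le_mul_of_nonneg_right (le_max_left _ _)
          (Finset.sum_nonneg fun i _ => by positivity)) n hn
    refine h.trans ?_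
    have e0 : g.comp (A ^ 0) = g := by ext x; simp
    simp only [e0]
    exact lift D2 κ2 (κ1 + κ2) n _ hn (by positivity) hD2 (Nat.le_add_left _ _))
  exact ⟨D', κ', H⟩

/-- Polylogarithmic growth. -/
theorem polylog (hlev : S_level.{u}) (hfwd : S_fwd.{u}) (hbwd : S_bwd.{u}) (hrec : S_rec)
    (hcomb : S_comb.{u}) (hcpx : S_cpx.{u}) {Ω : Type u} [MeasurableSpace Ω] (μ : Measure Ω)
    (P : ℝ≥0∞) (hP1 : 1 < P) (hP2 : P < ⊤) [Fact (1 ≤ P)]
    (T : Lp ℂ P μ →L[ℂ] Lp ℂ P μ) (hT : Pos T) (hS : SKB T) :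
    ∃ (D : ℝ) (κ : ℕ), ∀ n : ℕ, 1 ≤ n → ‖T ^ n‖ ≤ D * (1 + Real.log n) ^ κ := by
  obtain ⟨p, hp⟩ : ∃ p : ℝ, P = ENNReal.ofReal p := ⟨P.toReal, (ENNReal.ofReal_toReal hP2.ne).symm⟩
  subst hp
  have hp : 1 < p := by
    rw [← ENNReal.ofReal_one] at hP1
    exact (ENNReal.ofReal_lt_ofReal_iff_of_nonneg zero_le_one).1 hP1
  obtain ⟨A, M, K, hM, hA, hKn, hK, hn⟩ := hcpx Ω μ _ T hT hS
  obtain ⟨D, κ, H⟩ := realPart hlev hfwd hbwd hrec hcomb μ p hp A M K hM hA hKn hK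
  refine ⟨2 * D, κ, fun n h1 => ?_⟩
  calc ‖T ^ n‖ ≤ 2 * ‖A ^ n‖ := hn n
    _ ≤ 2 * (D * (1 + Real.log n) ^ κ) := by linarith [H n h1]
    _ = 2 * D * (1 + Real.log n) ^ κ := by ring

theorem polylog_le_rpow (D : ℝ) (κ : ℕ) (θ : ℝ) (hθ : 0 < θ) :
    ∃ C : ℝ, ∀ n : ℕ, 1 ≤ n → D * (1 + Real.log n) ^ κ ≤ C * (n : ℝ) ^ θ := by
  set ε : ℝ := θ / (κ + 1) with hε
  have hε0 : 0 < ε := by positivity
  refine ⟨|D| * (1 + 1 / ε) ^ κ, fun n hn => ?_⟩
  have hn1 : (1:ℝ) ≤ n := by exact_mod_cast hn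
  have hlog : 0 ≤ Real.log n := Real.log_nonneg hn1
  have h1 : Real.log n ≤ (n:ℝ) ^ ε / ε := Real.log_le_rpow_div (by positivity) hε0
  have h2 : (1:ℝ) ≤ (n:ℝ) ^ ε := Real.one_le_rpow hn1 hε0.le
  have h3 : 1 + Real.log n ≤ (1 + 1 / ε) * (n:ℝ) ^ ε := by
    have : (n:ℝ) ^ ε / ε = 1 / ε * (n:ℝ) ^ ε := by ring
    rw [this] at h1
    nlinarith
  have h4 : (1 + Real.log n) ^ κ ≤ (1 + 1 / ε) ^ κ * (n:ℝ) ^ θ := by
    calc (1 + Real.log n) ^ κ ≤ ((1 + 1 / ε) * (n:ℝ) ^ ε) ^ κ :=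
          pow_le_pow_left₀ (by positivity) h3 κ
      _ = (1 + 1 / ε) ^ κ * ((n:ℝ) ^ ε) ^ κ := mul_pow _ _ _
      _ ≤ (1 + 1 / ε) ^ κ * (n:ℝ) ^ θ := by
          apply mul_le_mul_of_nonneg_left _ (by positivity)
          rw [← Real.rpow_natCast, ← Real.rpow_mul (by positivity)]
          apply Real.rpow_le_rpow_of_exponent_le hn1
          rw [hε]
          have hk : (0:ℝ) ≤ κ := by positivity
          rw [div_mul_eq_mul_div, div_le_iff₀ (by positivity)]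
          nlinarith
  calc D * (1 + Real.log n) ^ κ ≤ |D| * (1 + Real.log n) ^ κ :=
        mul_le_mul_of_nonneg_right (le_abs_self D) (by positivity)
    _ ≤ |D| * ((1 + 1 / ε) ^ κ * (n:ℝ) ^ θ) := mul_le_mul_of_nonneg_left h4 (abs_nonneg _)
    _ = |D| * (1 + 1 / ε) ^ κ * (n:ℝ) ^ θ := by ring

end Pool.Agent.R221.SK
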