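import Pool.Agent.R221.SK.Defs

/-! Real recursion: window estimates give polylogarithmic averages. -/

namespace Pool.Agent.R221.SK
open MeasureTheory Finset

namespace RecAux

theorem windows {C : ℝ} {F : ℕ → ℝ} (hF : ∀ i, 0 ≤ F i) (σ : ℕ) (hσ : 1 ≤ σ)
    (h : ∀ N σ : ℕ, 4 * N ≤ σ ^ 2 →
      ∑ l ∈ Ico (N + σ) (N + 3 * σ), F l ≤ C * ∑ i ∈ range (4 * σ), F i) :
    ∀ j : ℕ, 8 * j ≤ σ + 8 → ∑ i ∈ range (σ + 2 * σ * j), F i
      ≤ (1 + j * C) * ∑ i ∈ range (4 * σ), F i := by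
  intro j
  induction j with
  | zero =>
    intro _
    have e : σ + 2 * σ * 0 = σ := by omega
    rw [e, Nat.cast_zero, zero_mul, add_zero, one_mul]
    exact Finset.sum_le_sum_of_subset_of_nonneg (Finset.range_mono (by omega)) fun i _ _ => hF i
  | succ j ih =>
    intro hj
    have h1 := ih (by omega)
    have h2 := h (2 * σ * j) σ (by nlinarith)
    have e1 : σ + 2 * σ * (j + 1) = 2 * σ * j + 3 * σ := by ring
    have e2 : σ + 2 * σ * j = 2 * σ * j + σ := by ring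
    rw [e1, ← Finset.sum_range_add_sum_Ico F (show 2 * σ * j + σ ≤ 2 * σ * j + 3 * σ by omega)]
    rw [e2] at h1
    push_cast
    linarith

theorem step {C : ℝ} (hC : 1 ≤ C) {F : ℕ → ℝ} (hF : ∀ i, 0 ≤ F i) (σ : ℕ) (hσ : 1 ≤ σ)
    (h : ∀ N σ : ℕ, 4 * N ≤ σ ^ 2 →
      ∑ l ∈ Ico (N + σ) (N + 3 * σ), F l ≤ C * ∑ i ∈ range (4 * σ), F i)
    (n : ℕ) (hn : 4 * n ≤ σ ^ 2) :
    ∑ i ∈ range n, F i ≤ 3 * C * σ * ∑ i ∈ range (4 * σ), F i := by
  have h1 := windows hF σ hσ h (σ / 8 + 1) (by omega)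
  have h2 : n ≤ σ + 2 * σ * (σ / 8 + 1) := by
    have h8 : σ ≤ 8 * (σ / 8) + 7 := by omega
    nlinarith [Nat.mul_le_mul_left σ h8]
  have h3 : ∑ i ∈ range n, F i ≤ ∑ i ∈ range (σ + 2 * σ * (σ / 8 + 1)), F i :=
    Finset.sum_le_sum_of_subset_of_nonneg (Finset.range_mono h2) fun i _ _ => hF i
  refine h3.trans (h1.trans ?_)
  refine mul_le_mul_of_nonneg_right ?_ (Finset.sum_nonneg fun i _ => hF i)
  have h4 : (((σ / 8 + 1 : ℕ)) : ℝ) ≤ 2 * (σ : ℝ) := by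
    have : σ / 8 + 1 ≤ 2 * σ := by omega
    exact_mod_cast this
  have h5 : (1 : ℝ) ≤ σ := by exact_mod_cast hσ
  nlinarith

theorem logs (n x : ℕ) (hn : 20736 ≤ n) (hx : 1 ≤ x) (h : x ^ 2 ≤ 144 * n) :
    x < n ∧ 1 + Real.log x ≤ 4 / 5 * (1 + Real.log n) := by
  have h4 : x ^ 4 ≤ n ^ 3 := by
    calc x ^ 4 = (x ^ 2) ^ 2 := by ring
      _ ≤ (144 * n) ^ 2 := Nat.pow_le_pow_left h 2
      _ = 20736 * n ^ 2 := by ring
      _ ≤ n * n ^ 2 := Nat.mul_le_mul_right _ hn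
      _ = n ^ 3 := by ring
  have hxn : x < n := by
    by_contra hc
    rw [not_lt] at hc
    have h5 : n ^ 4 ≤ x ^ 4 := Nat.pow_le_pow_left hc 4
    have h6 : n ^ 3 < n ^ 4 := Nat.pow_lt_pow_right (by omega) (by omega)
    omega
  refine ⟨hxn, ?_⟩
  have hx' : (0 : ℝ) < x := by exact_mod_cast hx
  have hn' : (0 : ℝ) < n := by
    have : 0 < n := by omega
    exact_mod_cast this
  have h7 : 4 * Real.log x ≤ 3 * Real.log n := by
    have h8 : Real.log ((x : ℝ) ^ 4) ≤ Real.log ((n : ℝ) ^ 3) :=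
      Real.log_le_log (by positivity) (by exact_mod_cast h4)
    rw [Real.log_pow, Real.log_pow] at h8
    exact_mod_cast h8
  have h9 : 4 ≤ Real.log n := by
    rw [Real.le_log_iff_exp_le hn']
    have e : (4 : ℝ) = ((4 : ℕ) : ℝ) * 1 := by norm_num
    rw [e, Real.exp_nat_mul]
    have h10 : Real.exp 1 ≤ 12 := by linarith [Real.exp_one_lt_d9]
    calc Real.exp 1 ^ 4 ≤ (12 : ℝ) ^ 4 := by
          exact pow_le_pow_left₀ (Real.exp_pos 1).le h10 4
      _ = 20736 := by norm_num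
      _ ≤ n := by exact_mod_cast hn
  linarith

theorem choose_sigma (n : ℕ) (hn : 1 ≤ n) : ∃ σ : ℕ, 1 ≤ σ ∧ 4 * n ≤ σ ^ 2 ∧ σ ^ 2 ≤ 9 * n := by
  refine ⟨Nat.sqrt (4 * n) + 1, by omega, ?_, ?_⟩
  · have := Nat.lt_succ_sqrt (4 * n)
    rw [Nat.succ_eq_add_one] at this
    nlinarith
  · have h1 := Nat.sqrt_le (4 * n)
    have h2 : Nat.sqrt (4 * n) ≤ 2 * n := by
      by_contra hc
      rw [not_le] at hc
      nlinarith
    nlinarith

end RecAux

open RecAux in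
/-- Real recursion: windows estimates give polylogarithmic averages. -/
theorem rec_ : S_rec := by
  intro C Λ hC hΛ
  obtain ⟨κ, hκ⟩ : ∃ κ : ℕ, (4 / 5 : ℝ) ^ κ < 1 / (108 * C) :=
    exists_pow_lt_of_lt_one (by positivity) (by norm_num)
  have hκ' : 108 * C * (4 / 5 : ℝ) ^ κ ≤ 1 := by
    rw [lt_div_iff₀ (by positivity)] at hκ
    linarith
  have hΛ0 : 0 ≤ Λ := zero_le_one.trans hΛ
  obtain ⟨D, hD⟩ : ∃ D : ℝ, D = ∑ i ∈ range 20736, Λ ^ i := ⟨_, rfl⟩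
  have hD0 : 0 ≤ D := by
    rw [hD]
    exact Finset.sum_nonneg fun i _ => pow_nonneg hΛ0 i
  have hsmall : ∀ F : ℕ → ℝ, 0 ≤ F 0 → (∀ i, F i ≤ Λ ^ i * F 0) → ∀ n : ℕ, n < 20736 →
      ∑ i ∈ range n, F i ≤ D * F 0 := by
    intro F hF0 hΛF n hb
    rw [hD, Finset.sum_mul]
    calc ∑ i ∈ range n, F i ≤ ∑ i ∈ range n, Λ ^ i * F 0 :=
          Finset.sum_le_sum fun i _ => hΛF i
      _ ≤ ∑ i ∈ range 20736, Λ ^ i * F 0 :=
          Finset.sum_le_sum_of_subset_of_nonneg (Finset.range_mono hb.le)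
            fun i _ _ => mul_nonneg (pow_nonneg hΛ0 i) hF0
  clear hD
  refine ⟨D, κ, ?_⟩
  intro F hF hΛF hw
  have hF0 := hF 0
  intro n
  induction n using Nat.strong_induction_on with
  | _ n ih =>
    intro hn
    have hn1 : (1 : ℝ) ≤ n := by exact_mod_cast hn
    have hlog : 0 ≤ Real.log n := Real.log_nonneg hn1
    by_cases hb : n < 20736
    · have h1 := hsmall F hF0 hΛF n hb
      refine h1.trans (mul_le_mul_of_nonneg_right ?_ hF0)
      have h2 : (1 : ℝ) ≤ (1 + Real.log n) ^ κ := one_le_pow₀ (by linarith)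
      calc D = D * 1 * 1 := by ring
        _ ≤ D * n * (1 + Real.log n) ^ κ :=
            mul_le_mul (mul_le_mul_of_nonneg_left hn1 hD0) h2 zero_le_one (by positivity)
    · rw [not_lt] at hb
      obtain ⟨σ, hσ, h1, h2⟩ := choose_sigma n hn
      have h3 := step hC hF σ hσ hw n h1
      obtain ⟨h4, h5⟩ := logs n (4 * σ) hb (by omega) (by nlinarith)
      have h6 := ih (4 * σ) h4 (by omega)
      have hx1 : (1 : ℝ) ≤ ((4 * σ : ℕ) : ℝ) := by
        have : 1 ≤ 4 * σ := by omega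
        exact_mod_cast this
      have hlx : 0 ≤ Real.log ((4 * σ : ℕ) : ℝ) := Real.log_nonneg hx1
      have h7 : (1 + Real.log ((4 * σ : ℕ) : ℝ)) ^ κ ≤ (4 / 5) ^ κ * (1 + Real.log n) ^ κ := by
        rw [← mul_pow]
        exact pow_le_pow_left₀ (by linarith) h5 κ
      have h8 : (σ : ℝ) ^ 2 ≤ 9 * n := by exact_mod_cast h2
      have hσ0 : (0 : ℝ) ≤ σ := Nat.cast_nonneg _
      calc ∑ i ∈ range n, F i ≤ 3 * C * σ * ∑ i ∈ range (4 * σ), F i := h3
        _ ≤ 3 * C * σ * (D * ((4 * σ : ℕ) : ℝ)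
              * (1 + Real.log ((4 * σ : ℕ) : ℝ)) ^ κ * F 0) :=
            mul_le_mul_of_nonneg_left h6 (by positivity)
        _ = (12 * C * D * F 0) * ((σ : ℝ) ^ 2 * (1 + Real.log ((4 * σ : ℕ) : ℝ)) ^ κ) := by
            push_cast; ring
        _ ≤ (12 * C * D * F 0) * ((9 * n) * ((4 / 5) ^ κ * (1 + Real.log n) ^ κ)) := by
            refine mul_le_mul_of_nonneg_left ?_ (by positivity)
            exact mul_le_mul h8 h7 (by positivity) (by positivity)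
        _ = (108 * C * (4 / 5 : ℝ) ^ κ) * (D * n * (1 + Real.log n) ^ κ * F 0) := by ring
        _ ≤ 1 * (D * n * (1 + Real.log n) ^ κ * F 0) :=
            mul_le_mul_of_nonneg_right hκ' (by positivity)
        _ = D * n * (1 + Real.log n) ^ κ * F 0 := one_mul _

end Pool.Agent.R221.SK
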